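import Pool.Agent.Run7.h875.TM.Top

/-!
# Twists over 2-extensions: down to `K`
-/

set_option autoImplicit false
set_option linter.all false

open Polynomial IsDedekindDomain WeierstrassCurve WeierstrassCurve.Affine
open Pool.Agent.TH115.GD Pool.Agent.N874.PP Pool.Agent.N874.PM Pool.Agent.N199.PP
open Run7.h875.TS Run7.h225.TS Run7.h225.TS.GRP
open scoped Classical IntermediateField

namespace Run7.h875.TM

section loc

variable {k K L M Ω F : Type} [Field k] [Field K] [Field L] [Field M] [Field Ω] [Field F]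
  [Algebra k[X] K] [IsFractionRing k[X] K]
  [Algebra K L] [Algebra k[X] L] [IsScalarTower k[X] K L]
  [Algebra K M] [Algebra k[X] M] [IsScalarTower k[X] K M]
  [Algebra L Ω] [Algebra M Ω] [Algebra K Ω] [IsScalarTower K L Ω] [IsScalarTower K M Ω]
  [Algebra K F] {a b D : k[X]} {θ : L}

theorem locAt_of_lat (h : IsCub K a b θ)
    (hirr : Irreducible (X ^ 3 + C (algebraMap k[X] M a) * X + C (algebraMap k[X] M b) : M[X]))
    (hroot : aeval (algebraMap L Ω θ)
      (X ^ 3 + C (algebraMap k[X] M a) * X + C (algebraMap k[X] M b) : M[X]) = 0)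
    (j : M →ₐ[K] F) {x : L}
    (hl : LAt (algebraMap L Ω θ) (algebraMap k[X] M a) (algebraMap k[X] M b) (algebraMap k[X] M D)
      (j : M →+* F) (algebraMap L Ω x)) :
    LocAt h F (algebraMap K F (algebraMap k[X] K D)) x := by
  have e1 : aeval (algebraMap L Ω θ) ((pol h x).map (algebraMap K M)) = algebraMap L Ω x := by
    rw [aeval_map_algebraMap, aeval_algebraMap_apply, aeval_pol]
  rw [← e1] at hl
  have h1 := lat_congr hirr hroot hl
  have e2 : ∀ P : k[X], (j : M →+* F) (algebraMap k[X] M P) = algebraMap K F (algebraMap k[X] K P) := by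
    intro P
    rw [IsScalarTower.algebraMap_apply k[X] K M]
    exact j.commutes _
  have e3 : (j : M →+* F).comp (algebraMap K M) = algebraMap K F := RingHom.ext fun y => j.commutes y
  rw [Polynomial.map_map, e2, e2, e2, e3] at h1
  exact h1

end loc

section base

variable {k K L M Ω : Type} (O O' R : Type) [Field k] [Finite k] [Field K] [Field L] [Field M]
  [Field Ω]
  [Algebra k[X] K] [IsFractionRing k[X] K]
  [Algebra K L] [Algebra k[X] L] [IsScalarTower k[X] K L]
  [Algebra K M] [Algebra k[X] M] [IsScalarTower k[X] K M]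
  [Algebra L Ω] [Algebra M Ω] [Algebra K Ω] [IsScalarTower K L Ω] [IsScalarTower K M Ω]
  [Algebra k[X] Ω] [IsScalarTower k[X] L Ω] [IsScalarTower k[X] M Ω]
  [CommRing O] [IsDedekindDomain O] [Algebra O L] [IsFractionRing O L] [Algebra k[X] O]
  [IsScalarTower k[X] O L] [IsIntegralClosure O k[X] L] [Module.Finite k[X] O]
  [CommRing O'] [IsDedekindDomain O'] [Algebra O' Ω] [IsFractionRing O' Ω] [Algebra k[X] O']
  [IsScalarTower k[X] O' Ω] [IsIntegralClosure O' k[X] Ω] [Module.Finite k[X] O']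
  [CommRing R] [IsDedekindDomain R] [Algebra R M] [IsFractionRing R M] [Algebra k[X] R]
  [IsScalarTower k[X] R M] [IsIntegralClosure R k[X] M] [Module.Finite k[X] R] [IsGalois K M]
  [FiniteDimensional K M] [FiniteDimensional L Ω] [IsGalois L Ω]

/-- The conditions on the twist. -/
structure GoodD {k : Type} [Field k] (a b D : k[X]) : Prop where
  mon : D.Monic
  even : Even D.natDegree
  cop : ∀ P : k[X], Irreducible P → P ∣ D → ¬ P ∣ dsc a b
  sq : ∀ P : k[X], Irreducible P → P ^ 2 ∣ dsc a b → ∃ z : k[X], P ∣ z ^ 2 - D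

/-- The conditions on the extension. -/
structure AdmT {k : Type} [Field k] (K M R : Type) [Field K] [Algebra k[X] K]
    [IsFractionRing k[X] K] [Field M] [Algebra K M] [CommRing R] [IsDedekindDomain R]
    [Algebra k[X] R] (a b D : k[X]) : Prop where
  unr : ∀ P : k[X], Irreducible P → Gd a b D P → Unr R P
  split : ∀ v : HeightOneSpectrum k[X], Vs a b D v → Nonempty (M →ₐ[K] v.adicCompletion K)
  inf : Nonempty (M →ₐ[K] CompInf k K)

include O O' R in
theorem base (h6 : (6 : k) ≠ 0) {a b D : k[X]} {θ : L} (h : IsCub K a b θ) (hd : dsc a b ≠ 0)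
    (hD : GoodD a b D) (hM : AdmT K M R a b D)
    (hsel : ∀ α : L, SelC h O (prD D) (fun P => D / P) α → IsSquare α)
    (hirr : Irreducible (X ^ 3 + C (algebraMap k[X] M a) * X + C (algebraMap k[X] M b) : M[X]))
    (hroot : aeval (algebraMap L Ω θ)
      (X ^ 3 + C (algebraMap k[X] M a) * X + C (algebraMap k[X] M b) : M[X]) = 0)
    (htop : Pool.Agent.N692.PMTOW.im K M Ω ⊔ Pool.Agent.N692.PMTOW.im K L Ω = ⊤)
    {x : L} (hx : x ≠ 0)
    (hC : CndT K M O' a b D (algebraMap L Ω θ) (algebraMap L Ω x))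
    (hN : IsSquare (Algebra.norm K x)) : IsSquare x := by
  have h2 : (2 : k) ≠ 0 := by
    intro h0
    apply h6
    rw [show (6 : k) = 2 * 3 by norm_num, h0, zero_mul]
  have hD0 := hD.mon.ne_zero
  have hAt : ∀ v : HeightOneSpectrum k[X], Vs a b D v → LocAt h (v.adicCompletion K)
      (algebraMap K (v.adicCompletion K) (algebraMap k[X] K D)) x := by
    intro v hv
    obtain ⟨j⟩ := hM.split v hv
    exact locAt_of_lat h hirr hroot j (hC.loc v hv j)
  have hAtI : LocAt h (CompInf k K) (algebraMap K (CompInf k K) (algebraMap k[X] K D)) x := by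
    obtain ⟨j⟩ := hM.inf
    exact locAt_of_lat h hirr hroot j (hC.inf j)
  refine hsel x ⟨hx, hN, ?_, ?_, ?_, ?_⟩
  · intro P hPm hPi hPS hP2 𝔓 hov
    have hPD : ¬ P ∣ D := fun h1 => hPS ((mem_prD hD0).2 ⟨hPm, hPi, h1⟩)
    by_cases hz : ∃ z : k[X], P ∣ z ^ 3 + a * z + b
    · have hg : Gd a b D P := ⟨hz, hPD, hP2⟩
      obtain ⟨𝔓', hv⟩ := val_down (K := K) (L := L) (M := M) O O' R hPi (hM.unr P hPi hg) htop 𝔓 hov
      rw [← ev_down hv]
      exact hC.ev P 𝔓' hPi ((ov_down hv P).2 hov) hg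
    · push Not at hz
      exact ev_inert h6 h hd hPi hz hx hN 𝔓 hov
  · intro P v hPi hv hP2
    obtain ⟨z, hz⟩ := hD.sq P hPi hP2
    have hPd : P ∣ dsc a b := (dvd_pow_self P two_ne_zero).trans hP2
    have hPz : ¬ P ∣ z := by
      intro h1
      apply hD.cop P hPi ?_ hPd
      have := dvd_sub (dvd_pow h1 (two_ne_zero)) hz
      simpa using this
    obtain ⟨s, hs, hs2⟩ := sq_of_cong (F := K) h2 v (D := D) (z := z)
      (by rw [hv, Ideal.mem_span_singleton]; exact hPz)
      (by rw [hv, Ideal.mem_span_singleton]; exact hz)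
    have h1 := hAt v (Or.inr (by
      rw [hv, Ideal.span_singleton_pow, Ideal.mem_span_singleton]
      exact hP2))
    unfold LocAt at h1 ⊢
    rw [hs2, ← one_mul (s ^ 2)] at h1
    exact locT_scale hs h1
  · intro P hP v hv
    have h1 := (mem_prD hD0).1 hP
    have e : P * (D / P) = D := by
      obtain ⟨Z, hZ⟩ := h1.2.2
      have e2 : D / P = Z := by
        rw [hZ, mul_comm P Z]
        exact mul_div_self' h1.2.1.ne_zero
      rw [e2, ← hZ]
    show LocAt h (v.adicCompletion K)
      (algebraMap K (v.adicCompletion K) (algebraMap k[X] K (P * (D / P)))) _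
    rw [e]
    exact hAt v (Or.inl (by
      rw [hv, Ideal.mem_span_singleton]
      exact h1.2.2))
  · obtain ⟨s, hs, hs2⟩ := sq_inf (F := K) h2 hD.mon hD.even
    have h1 := hAtI
    unfold LocAt at h1 ⊢
    rw [hs2, ← one_mul (s ^ 2)] at h1
    exact locT_scale hs h1

end base

end Run7.h875.TM
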