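import Pool.Agent.Run7.h225.TS.Ovr3
import Pool.Agent.N814.PM.P3

/-!
# Twists over 2-extensions: the parity at an inert prime
-/

set_option autoImplicit false
set_option linter.all false

open Polynomial IsDedekindDomain WithZero UniqueFactorizationMonoid
open scoped Classical

namespace Run7.h875.TM

open Pool.Agent.N874.PP Pool.Agent.N862.PP Pool.Agent.N814.PM Run7.h225.TS.Ovr

/-- A prime modulo which the cubic polynomial has no zero does not divide the discriminant. -/
theorem ndvd_dsc {k : Type} [Field k] (h6 : (6 : k) ≠ 0) {a b P : k[X]} (hP : Irreducible P)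
    (hns : ∀ z : k[X], ¬ P ∣ z ^ 3 + a * z + b) : ¬ P ∣ dsc a b := by
  intro hd
  have h2 : (2 : k) ≠ 0 := by
    intro h
    apply h6
    rw [show (6 : k) = 2 * 3 by norm_num, h, zero_mul]
  have h3 : (3 : k) ≠ 0 := by
    intro h
    apply h6
    rw [show (6 : k) = 2 * 3 by norm_num, h, mul_zero]
  have hb : ¬ P ∣ b := by
    intro h
    apply hns 0
    simpa using h
  have ha : ¬ P ∣ a := by
    intro h
    have h4 : P ∣ 27 * b ^ 2 := by
      unfold dsc at hd
      have h5 : P ∣ 4 * a ^ 3 := (dvd_pow h three_ne_zero).mul_left _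
      exact (dvd_add_right h5).1 hd
    rcases hP.prime.dvd_or_dvd h4 with h5 | h5
    · have h7 : IsUnit (27 : k[X]) := by
        have : (27 : k[X]) = C 27 := by rw [map_ofNat]
        rw [this, isUnit_C]
        have e : (27 : k) = 3 ^ 3 := by norm_num
        rw [e]
        exact (isUnit_iff_ne_zero.2 (pow_ne_zero _ h3))
      exact hP.not_isUnit (isUnit_of_dvd_unit h5 h7)
    · exact hb (hP.prime.dvd_of_dvd_pow h5)
  -- the double zero
  have h2a : IsCoprime (2 * a) P := by
    rw [isCoprime_comm, hP.coprime_iff_not_dvd]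
    intro h
    rcases hP.prime.dvd_or_dvd h with h5 | h5
    · have h7 : IsUnit (2 : k[X]) := by
        have : (2 : k[X]) = C 2 := by rw [map_ofNat]
        rw [this, isUnit_C]
        exact (isUnit_iff_ne_zero.2 h2)
      exact hP.not_isUnit (isUnit_of_dvd_unit h5 h7)
    · exact ha h5
  obtain ⟨u, w, huw⟩ := h2a
  obtain ⟨c, hc⟩ := hd
  unfold dsc at hc
  -- `z = - 3 b u`
  have h8 : IsCoprime (8 * a ^ 3) P := by
    have : (8 * a ^ 3 : k[X]) = (2 * a) ^ 3 := by ring
    rw [this]
    exact IsCoprime.pow_left ⟨u, w, huw⟩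
  apply hns (-3 * b * u)
  refine h8.symm.dvd_of_dvd_mul_left ?_
  have e1 : 2 * a * u = 1 - w * P := by linear_combination huw
  have e2 : 8 * a ^ 3 * ((-3 * b * u) ^ 3 + a * (-3 * b * u) + b) =
      -27 * b ^ 3 * (2 * a * u) ^ 3 - 12 * a ^ 3 * b * (2 * a * u) + 8 * a ^ 3 * b := by ring
  rw [e2, e1]
  refine ⟨-b * c + (-27 * b ^ 3) * (-3 * w + 3 * w ^ 2 * P - w ^ 3 * P ^ 2) +
    12 * a ^ 3 * b * w, ?_⟩
  linear_combination (-b) * hc

section

variable {k K L O : Type} [Field k] [Field K] [Algebra k[X] K]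
    [IsFractionRing k[X] K]
    [Field L] [Algebra K L] [Algebra k[X] L] [IsScalarTower k[X] K L] [CommRing O]
    [IsDedekindDomain O] [Algebra O L] [IsFractionRing O L] [Algebra k[X] O]
    [IsScalarTower k[X] O L] [IsIntegralClosure O k[X] L] {a b : k[X]} {θ : L}

/-- The only prime over `P` is `P O`. -/
theorem eq_span' (h : IsCub K a b θ) {P : k[X]} (hP : Irreducible P) (hd : ¬ P ∣ dsc a b)
    (hns : ∀ z : k[X], ¬ P ∣ z ^ 3 + a * z + b) {t : O} (ht : algebraMap O L t = θ)
    (htr : t ^ 3 + algebraMap k[X] O a * t + algebraMap k[X] O b = 0)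
    {𝔓 : HeightOneSpectrum O} (hov : Ov P 𝔓) :
    𝔓.asIdeal = Ideal.span {algebraMap k[X] O P} := by
  have hmax : (Ideal.span {P} : Ideal k[X]).IsMaximal :=
    PrincipalIdealRing.isMaximal_of_irreducible hP
  letI : Field (k[X] ⧸ Ideal.span {P}) := Ideal.Quotient.field _
  have hpr : 𝔓.asIdeal.IsPrime := 𝔓.isPrime
  haveI : Nontrivial (O ⧸ 𝔓.asIdeal) := Ideal.Quotient.nontrivial_iff.mpr hpr.ne_top
  have hle : (Ideal.span {P} : Ideal k[X]) ≤ 𝔓.asIdeal.comap (algebraMap k[X] O) := by
    rw [Ideal.span_singleton_le_iff_mem]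
    exact hov
  let ι : (k[X] ⧸ Ideal.span {P}) →+* (O ⧸ 𝔓.asIdeal) :=
    Ideal.quotientMap 𝔓.asIdeal (algebraMap k[X] O) hle
  have hι : ∀ x : k[X], ι (Ideal.Quotient.mk _ x) =
      Ideal.Quotient.mk 𝔓.asIdeal (algebraMap k[X] O x) := fun x => by
    simp only [ι, Ideal.quotientMap_mk]
  let q : k[X] →+* (k[X] ⧸ Ideal.span {P}) := Ideal.Quotient.mk _
  have hq : ∀ x : k[X], q x = 0 ↔ P ∣ x := fun x => by
    simp only [q, Ideal.Quotient.eq_zero_iff_mem, Ideal.mem_span_singleton]
  let f : (k[X] ⧸ Ideal.span {P})[X] := X ^ 3 + C (q a) * X + C (q b)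
  have hfm : f.Monic := by
    simp only [f]
    monicity!
  have hfd : f.natDegree = 3 := by
    simp only [f]
    compute_degree!
  have hfi : Irreducible f := by
    rw [hfm.irreducible_iff_roots_eq_zero_of_degree_le_three (by omega) (by omega)]
    rw [Multiset.eq_zero_iff_forall_notMem]
    intro x hx
    rw [mem_roots hfm.ne_zero, IsRoot.def] at hx
    obtain ⟨z, rfl⟩ := Ideal.Quotient.mk_surjective x
    refine hns z ((hq _).mp ?_)
    simp only [f, eval_add, eval_mul, eval_pow, eval_X, eval_C] at hx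
    simpa [q] using hx
  refine le_antisymm ?_ ?_
  · intro z hz
    obtain ⟨v, hv⟩ := dsc_crd h (isInt (L := L) z)
    have hz' : algebraMap k[X] O (dsc a b) * z =
        algebraMap k[X] O (v 0) + algebraMap k[X] O (v 1) * t +
        algebraMap k[X] O (v 2) * t ^ 2 := by
      apply IsFractionRing.injective O L
      unfold Crd at hv
      simp only [map_add, map_mul, map_pow, ht, ← IsScalarTower.algebraMap_apply k[X] O L]
      exact hv
    let w : (k[X] ⧸ Ideal.span {P})[X] := C (q (v 0)) + C (q (v 1)) * X + C (q (v 2)) * X ^ 2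
    have hw0 : w = 0 := by
      by_contra hne
      have hnd : ¬ f ∣ w := by
        intro hd
        have h1 := Polynomial.natDegree_le_of_dvd hd hne
        have h2 : w.natDegree ≤ 2 := by
          simp only [w]
          compute_degree
        omega
      obtain ⟨u, u', hu⟩ := (hfi.coprime_iff_not_dvd).mpr hnd
      have h1 := congrArg (eval₂ ι (Ideal.Quotient.mk 𝔓.asIdeal t)) hu
      have h2 : eval₂ ι (Ideal.Quotient.mk 𝔓.asIdeal t) f = 0 := by
        simp only [f, eval₂_add, eval₂_mul, eval₂_pow, eval₂_X, eval₂_C, q, hι]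
        rw [← map_pow, ← map_mul, ← map_add, ← map_add, htr, map_zero]
      have h3 : eval₂ ι (Ideal.Quotient.mk 𝔓.asIdeal t) w = 0 := by
        simp only [w, eval₂_add, eval₂_mul, eval₂_pow, eval₂_X, eval₂_C, q, hι]
        rw [← map_pow, ← map_mul, ← map_mul, ← map_add, ← map_add, ← hz',
          Ideal.Quotient.eq_zero_iff_mem]
        exact Ideal.mul_mem_left _ _ hz
      rw [eval₂_add, eval₂_mul, eval₂_mul, h2, h3, mul_zero, mul_zero, add_zero, eval₂_one] at h1
      exact zero_ne_one h1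
    have hc : ∀ i, P ∣ v i := by
      have c0 : w.coeff 0 = q (v 0) := by simp [w]
      have c1 : w.coeff 1 = q (v 1) := by simp [w, coeff_X, coeff_C]
      have c2 : w.coeff 2 = q (v 2) := by simp [w, coeff_X, coeff_C]
      rw [hw0, coeff_zero] at c0 c1 c2
      intro i
      fin_cases i
      · exact (hq _).mp c0.symm
      · exact (hq _).mp c1.symm
      · exact (hq _).mp c2.symm
    have hm : ∀ i, algebraMap k[X] O (v i) ∈ Ideal.span {algebraMap k[X] O P} := fun i =>
      Ideal.mem_span_singleton.mpr (map_dvd _ (hc i))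
    have hdz : algebraMap k[X] O (dsc a b) * z ∈ Ideal.span {algebraMap k[X] O P} := by
      rw [hz']
      exact add_mem (add_mem (hm 0) (Ideal.mul_mem_right _ _ (hm 1)))
        (Ideal.mul_mem_right _ _ (hm 2))
    obtain ⟨u, e, hue⟩ := (hP.coprime_iff_not_dvd).2 hd
    have hz2 : z = algebraMap k[X] O e * (algebraMap k[X] O (dsc a b) * z) +
        algebraMap k[X] O P * (algebraMap k[X] O u * z) := by
      have := congrArg (algebraMap k[X] O) hue
      rw [map_add, map_mul, map_mul, map_one] at this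
      linear_combination (-z) * this
    rw [hz2]
    exact add_mem (Ideal.mul_mem_left _ _ hdz)
      (Ideal.mul_mem_right _ _ (Ideal.mem_span_singleton_self _))
  · rw [Ideal.span_singleton_le_iff_mem]
    exact hov

/-- The parity at an inert prime. -/
theorem ev_inert (h6 : (6 : k) ≠ 0) (h : IsCub K a b θ) (hd0 : dsc a b ≠ 0) {P : k[X]}
    (hP : Irreducible P)
    (hns : ∀ z : k[X], ¬ P ∣ z ^ 3 + a * z + b) {x : L} (hx : x ≠ 0)
    (hnx : IsSquare (Algebra.norm K x)) (𝔓 : HeightOneSpectrum O) (hov : Ov P 𝔓) : Ev 𝔓 x := by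
  have hd := ndvd_dsc h6 hP hns
  obtain ⟨t, ht, htr⟩ := exists_theta (K := K) (O := O) h
  have hfin : Module.Finite k[X] O := fin_O (K := K) (L := L) h hd0
  have htf : Module.IsTorsionFree k[X] O := tf_O (K := K) (L := L)
  have hspan : ∀ 𝔮 : HeightOneSpectrum O, Ov P 𝔮 →
      𝔮.asIdeal = Ideal.span {algebraMap k[X] O P} := fun 𝔮 hq =>
    eq_span' (K := K) (L := L) h hP hd hns ht htr hq
  refine parity h hP 𝔓 hov ?_ hx hnx fun 𝔮 ho hne => ?_
  · rw [hspan 𝔓 hov, cn_three (K := K) (L := L) h hP]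
    decide
  · exact absurd (HeightOneSpectrum.ext ((hspan 𝔮 ho).trans (hspan 𝔓 hov).symm)) hne

end

end Run7.h875.TM
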