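import Pool.Agent.Run7.h875.TM.Coc
import Pool.Agent.Run7.h875.TM.Par
import Pool.Agent.Run7.h875.Cnd

/-!
# Twists over 2-extensions: the conditions on the elements of the cubic extension of `M`
-/

set_option autoImplicit false
set_option linter.all false

open Polynomial IsDedekindDomain WeierstrassCurve WeierstrassCurve.Affine
open Pool.Agent.TH115.GD Pool.Agent.N874.PP Pool.Agent.N874.PM Pool.Agent.N199.PP
open Run7.h875.TS
open scoped Classical IntermediateField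

namespace Run7.h875.TM

/-- The cubic polynomial has a zero modulo `P`, `P` does not divide `D`, and `P ^ 2` does not divide
the discriminant. -/
def Gd {k : Type} [Field k] (a b D P : k[X]) : Prop :=
  (∃ z : k[X], P ∣ z ^ 3 + a * z + b) ∧ ¬ P ∣ D ∧ ¬ P ^ 2 ∣ dsc a b

/-- The places which split completely. -/
def Vs {k : Type} [Field k] (a b D : k[X]) (v : HeightOneSpectrum k[X]) : Prop :=
  D ∈ v.asIdeal ∨ dsc a b ∈ v.asIdeal ^ 2

section cnd

variable {k K M Ω : Type} [Field k] [Field K] [Algebra k[X] K] [IsFractionRing k[X] K]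
  [Field M] [Algebra K M] [Algebra k[X] M] [IsScalarTower k[X] K M]
  [Field Ω] [Algebra M Ω] [Algebra k[X] Ω] [IsScalarTower k[X] M Ω] (O' : Type)
  [CommRing O'] [IsDedekindDomain O'] [Algebra O' Ω] [IsFractionRing O' Ω] [Algebra k[X] O']
  [IsScalarTower k[X] O' Ω]

variable (K M) in
/-- The conditions. -/
structure CndT (a b D : k[X]) (θ x : Ω) : Prop where
  ev : ∀ (P : k[X]) (𝔓 : HeightOneSpectrum O'), Irreducible P → Ov P 𝔓 → Gd a b D P → Ev 𝔓 x
  loc : ∀ v : HeightOneSpectrum k[X], Vs a b D v → ∀ j : M →ₐ[K] v.adicCompletion K,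
    LAt θ (algebraMap k[X] M a) (algebraMap k[X] M b) (algebraMap k[X] M D)
      (j : M →+* v.adicCompletion K) x
  inf : ∀ j : M →ₐ[K] CompInf k K,
    LAt θ (algebraMap k[X] M a) (algebraMap k[X] M b) (algebraMap k[X] M D)
      (j : M →+* CompInf k K) x

variable {O'} {a b D : k[X]} {θ : Ω}

theorem cndT_sq (hgen : ∀ y : Ω, ∃ g : M[X], aeval θ g = y) (x : Ω) :
    CndT K M O' a b D θ (x ^ 2) where
  ev P 𝔓 _ _ _ := ev_sq 𝔓 x
  loc v _ j := lat_sq hgen _ x
  inf j := lat_sq hgen _ x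

theorem cndT_mul (h6 : (6 : k) ≠ 0) (hD : D ≠ 0) (hd : dsc a b ≠ 0)
    (hirr : Irreducible (X ^ 3 + C (algebraMap k[X] M a) * X + C (algebraMap k[X] M b) : M[X]))
    (hroot : aeval θ (X ^ 3 + C (algebraMap k[X] M a) * X + C (algebraMap k[X] M b) : M[X]) = 0)
    {x y : Ω} (hx : x ≠ 0) (hy : y ≠ 0) (h1 : CndT K M O' a b D θ x)
    (h2 : CndT K M O' a b D θ y) : CndT K M O' a b D θ (x * y) := by
  have h2k : (2 : k) ≠ 0 := by
    intro h0
    apply h6
    rw [show (6 : k) = 2 * 3 by norm_num, h0, zero_mul]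
  have inj : Function.Injective (algebraMap k[X] M) := by
    rw [IsScalarTower.algebraMap_eq k[X] K M]
    exact (algebraMap K M).injective.comp (IsFractionRing.injective k[X] K)
  have hDM : algebraMap k[X] M D ≠ 0 := by
    rw [Ne, map_eq_zero_iff _ inj]
    exact hD
  have hdM : 4 * (algebraMap k[X] M a) ^ 3 + 27 * (algebraMap k[X] M b) ^ 2 ≠ 0 := by
    intro h0
    apply hd
    apply inj
    unfold dsc
    rw [map_zero, map_add, map_mul, map_mul, map_pow, map_pow, map_ofNat, map_ofNat]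
    exact h0
  have h6F : ∀ (F : Type) [Field F] (j : M →+* F), (6 : F) ≠ 0 := by
    intro F _ j h0
    apply h6
    have : (j.comp ((algebraMap k[X] M).comp C)) (6 : k) = 0 := by
      rw [map_ofNat]
      exact h0
    exact (map_eq_zero_iff _ (RingHom.injective _)).1 this
  have hi := Run7.h225.TS.INFP.infp k K h2k
  refine ⟨fun P 𝔓 hP ho hg => ev_mul (h1.ev P 𝔓 hP ho hg) (h2.ev P 𝔓 hP ho hg),
    fun v hv j => ?_, fun j => ?_⟩
  · exact lat_mul (h6F _ (j : M →+* v.adicCompletion K)) hirr hroot hdM hDM _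
      (hi.1 v _ _ _ ((_root_.map_ne_zero _).2 hDM)) hx hy (h1.loc v hv j) (h2.loc v hv j)
  · exact lat_mul (h6F _ (j : M →+* CompInf k K)) hirr hroot hdM hDM _
      (hi.2 _ _ _ ((_root_.map_ne_zero _).2 hDM)) hx hy (h1.inf j) (h2.inf j)

theorem cndT_sig [IsIntegralClosure O' k[X] Ω] (hSIG : S_SIG) {L : Type} [Field L] [Algebra K L]
    [Algebra L Ω] [Algebra K Ω] [IsScalarTower K L Ω] [IsScalarTower K M Ω] [IsGalois K M]
    [Algebra k[X] L] [IsScalarTower k[X] L Ω] {θ₀ : L} (hθ : θ = algebraMap L Ω θ₀)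
    (σ : Ω ≃ₐ[L] Ω) {x : Ω} (h : CndT K M O' a b D θ x) : CndT K M O' a b D θ (σ x) := by
  have hf : ∀ y : L, σ (algebraMap L Ω y) = algebraMap L Ω y := fun y => σ.commutes y
  have key := hSIG k Ω O' (σ.restrictScalars k[X])
  have hev : ∀ (𝔓 𝔓' : HeightOneSpectrum O'), (∀ y : Ω, 𝔓'.valuation Ω y = 𝔓.valuation Ω (σ y)) →
      ∀ y : Ω, Ev 𝔓' y ↔ Ev 𝔓 (σ y) := by
    intro 𝔓 𝔓' hv y
    constructor
    · rintro ⟨z, hz⟩
      exact ⟨σ z, by rw [← hv, ← hv, hz]⟩
    · rintro ⟨z, hz⟩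
      refine ⟨σ.symm z, ?_⟩
      rw [hv, hv, σ.apply_symm_apply, hz]
  set τ : M ≃ₐ[K] M := res (K := K) σ with hτ
  have hτx : ∀ y : M, algebraMap M Ω (τ y) = σ (algebraMap M Ω y) := res_apply (K := K) σ
  have hτp : ∀ P : k[X], τ (algebraMap k[X] M P) = algebraMap k[X] M P := by
    intro P
    rw [IsScalarTower.algebraMap_apply k[X] K M, τ.commutes]
  refine ⟨fun P 𝔓 hP ho hg => ?_, fun v hv j => ?_, fun j => ?_⟩
  · obtain ⟨𝔓', hv, hO⟩ := key 𝔓
    exact (hev 𝔓 𝔓' hv x).1 (h.ev P 𝔓' hP ((hO P).2 ho) hg)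
  · exact lat_sig (τ : M →+* M) (σ : Ω →+* Ω) (by rw [hθ]; exact hf θ₀) hτx (hτp a) (hτp b)
      (hτp D) (h.loc v hv (j.comp (τ : M →ₐ[K] M)))
  · exact lat_sig (τ : M →+* M) (σ : Ω →+* Ω) (by rw [hθ]; exact hf θ₀) hτx (hτp a) (hτp b)
      (hτp D) (h.inf (j.comp (τ : M →ₐ[K] M)))

end cnd

end Run7.h875.TM
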