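import Pool.Agent.Run7.h875.TS.All
import Pool.Agent.Run7.h875.TS.FinD
import Pool.Agent.Run7.h875.TM.Base

/-!
# Twists over 2-extensions: counting
-/

set_option autoImplicit false
set_option linter.all false

open Polynomial IsDedekindDomain
open Pool.Agent.N874.PP Pool.Agent.TH115.GD
open Run7.h875.TS
open scoped Classical

namespace Run7.h875.TM

/-- The conditions on the twist, and the triviality of the Selmer groups. -/
def GoodS {k K ι : Type} [Field k] [Field K] [Algebra k[X] K] [IsFractionRing k[X] K]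
    {a b : ι → k[X]} (pk : ∀ i, Pack k K (a i) (b i)) (D : k[X]) : Prop :=
  ∀ i, GoodD (a i) (b i) D ∧
    ∀ α : (pk i).L, SelC (pk i).cub (pk i).O (prD D) (fun P => D / P) α → IsSquare α

section family

variable {k : Type} [Field k] [Finite k] {ι : Type} [Fintype ι] {a b p : ι → k[X]}
  {K : Type} [Field K] [Algebra k[X] K] [IsFractionRing k[X] K]
  (pk : ∀ i, Pack k K (a i) (b i))

theorem A4' (hREP : S_REP) (hGRP : S_GRP) (h6 : (6 : k) ≠ 0) (hD : Data a b p)
    (D : k[X]) (hDm : D.Monic) (hDs : Squarefree D) (hDe : Even D.natDegree)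
    (hDc : ∀ P : k[X], Irreducible P → P ∣ D → ¬ P ∣ BadF a b)
    (hDT : ∀ P ∈ TpF a b, ∃ z : k[X], P ∣ z ^ 2 - D)
    (hphi : phiF pk (prD D) (fun P => D / P) = 0) : GoodS pk D := by
  intro i
  have hG : GoodT (a i) (b i) (prD D) (fun P => D / P) := by
    refine ⟨fun P hP => ((mem_prD hDm.ne_zero).1 hP).1, fun P hP => ((mem_prD hDm.ne_zero).1 hP).2.1,
      fun P hP h1 => ?_, fun P hP => ?_⟩
    · have h2 := (mem_prD hDm.ne_zero).1 hP
      exact hDc P h2.2.1 h2.2.2 (h1.trans (dsc_dvd i))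
    · have h2 := (mem_prD hDm.ne_zero).1 hP
      exact ndvd_div h2.2.1 hDs h2.2.2
  refine ⟨⟨hDm, hDe, fun P hP h1 h2 => hDc P hP h1 (h2.trans (dsc_dvd i)), ?_⟩, ?_⟩
  · intro P hP h2
    have hn : normalize P ∈ TpF a b := by
      unfold TpF
      rw [Finset.mem_filter, mem_prD (BadF_ne hD)]
      have ha : Associated (normalize P) P := normalize_associated P
      refine ⟨⟨monic_normalize hP.ne_zero, ha.symm.irreducible hP, ?_⟩, i, ?_⟩
      · rw [ha.dvd_iff_dvd_left]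
        exact ((dvd_pow_self P two_ne_zero).trans h2).trans (dsc_dvd i)
      · rw [(ha.pow_pow (n := 2)).dvd_iff_dvd_left]
        exact h2
    obtain ⟨z, hz⟩ := hDT _ hn
    refine ⟨z, ?_⟩
    rwa [(normalize_associated P).dvd_iff_dvd_left] at hz
  · intro α hα
    have h1 : psi (pk i).cub (pk i).O (prD D) (fun P => D / P) = 0 := by
      unfold phiF at hphi
      exact (Finset.sum_eq_zero_iff.1 hphi) i (Finset.mem_univ i)
    exact psi_zero hREP hGRP h6 (pk i).cub hG h1 hα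

end family

theorem finS (k ι : Type) [Field k] [Finite k]
    [Finite ι] (a b p : ι → k[X]) (h6 : (6 : k) ≠ 0) (hD : Data a b p) (T : Finset k[X])
    (hT : AdT p T) (K : Type) [Field K] [Algebra k[X] K] [IsFractionRing k[X] K]
    (pk : ∀ i, Pack k K (a i) (b i)) :
    ∃ c : ℝ, 0 < c ∧ ∃ N₀ : ℕ, ∀ n ≥ N₀, Even n →
      c * (Nat.card k : ℝ) ^ n ≤
        ({D : k[X] | D.Monic ∧ D.natDegree = n ∧ Squarefree D ∧ GoodS pk D ∧
          ∀ P ∈ T, ∃ z : k[X], ¬ P ∣ z ∧ P ∣ z ^ 2 - D}.ncard : ℝ) := by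
  haveI := Fintype.ofFinite ι
  have hAVG := all_avg
  have hKILL := all_kill
  have hLAST := all_last
  have hSTEP := all_step
  have hCLSU := Run7.h298.TS.clsu
  have hSQF := Run7.h784.TS.SQF.sqf'
  have hREP := Run7.h225.TS.REP.rep
  have hGRP := Run7.h225.TS.GRP.grp
  obtain ⟨g, hg⟩ := exists_NRs k h6
  refine count (inv_phiT pk hREP hGRP hCLSU h6 T)
    (T' := TpF a b ∪ T) ?_ hg
    ((hSQF k h6 (BadT a b T) (BadT_ne hD hT)).1) (fun D => GoodS pk D ∧
      ∀ P ∈ T, ∃ z : k[X], ¬ P ∣ z ∧ P ∣ z ^ 2 - D)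
    (B1 pk hREP hGRP hSTEP hKILL hLAST h6 hD hT) (B2 pk hREP hGRP hSTEP hLAST h6 hD hT)
    ?_ (B5 pk hAVG hSQF h6 hD hT hg)
  · intro P hP
    rw [Finset.mem_union] at hP
    rcases hP with hP | hP
    · exact ⟨(TpF_spec hD hP).2.1, (TpF_spec hD hP).2.2.1.trans (BadF_dvd T)⟩
    · exact ⟨(hT P hP).2.1, dvd_BadT hP⟩
  · intro D hDm hDs hDe hDc hDT hphi
    refine ⟨A4' pk hREP hGRP h6 hD D hDm hDs hDe
      (fun P hP h1 h2 => hDc P hP h1 (h2.trans (BadF_dvd T)))
      (fun P hP => hDT P (Finset.mem_union_left _ hP)) hphi, fun P hP => ?_⟩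
    obtain ⟨z, hz⟩ := hDT P (Finset.mem_union_right _ hP)
    refine ⟨z, fun h1 => ?_, hz⟩
    have h2 : P ∣ D := by
      have h3 := dvd_sub (dvd_pow h1 two_ne_zero) hz
      simpa using h3
    exact hDc P (hT P hP).2.1 h2 (dvd_BadT hP)

end Run7.h875.TM
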