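import Pool.Agent.Run7.h875.TM.Loc

/-!
# Twists over 2-extensions: from cocycles to the local conditions
-/

set_option autoImplicit false
set_option linter.all false

open Polynomial IsDedekindDomain WeierstrassCurve WeierstrassCurve.Affine
open Pool.Agent.TH115.GD Pool.Agent.N874.PP Pool.Agent.N199.PP
open Run7.h875.TS
open scoped Classical IntermediateField

namespace Run7.h875.TM

section one

variable {M Ω F : Type} [Field M] [Field Ω] [Field F] [Algebra M Ω] [Algebra M F] {a b D : M}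

theorem lat_of_loc (h6 : (6 : M) ≠ 0) (hD : D ≠ 0)
    (hd : 4 * (a * D ^ 2) ^ 3 + 27 * (b * D ^ 3) ^ 2 ≠ 0)
    (hinf : {z : F | ∃ w, w ≠ 0 ∧ w ^ 2 = z ^ 3 + algebraMap M F (a * D ^ 2) * z +
      algebraMap M F (b * D ^ 3)}.Infinite)
    {f : (Sep M ≃ₐ[M] Sep M) → Pt (sW (a * D ^ 2) (b * D ^ 3)) (Sep M)}
    (hf2 : ∀ σ, (2 : ℕ) • f σ = 0)
    {β : Sep M → Sep M} {H : M[X]} (hβ : IsBeta (a * D ^ 2) (b * D ^ 3) f β)
    (hh : ∀ t : Sep M, Rt (a * D ^ 2) (b * D ^ 3) t → aeval t H = β t ^ 2)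
    (hloc : LocTriv (sW (a * D ^ 2) (b * D ^ 3)) F (Sep F) f) (θ : Ω) :
    LAt θ a b D (algebraMap M F) (aeval (algebraMap M Ω D * θ) H) := by
  have hc := gl_gen h6 hd hinf f hf2 β H hβ hh hloc
  have e1 : algebraMap M F (a * D ^ 2) = algebraMap M F a * (algebraMap M F D) ^ 2 := by
    simp only [map_mul, map_pow]
  have e2 : algebraMap M F (b * D ^ 3) = algebraMap M F b * (algebraMap M F D) ^ 3 := by
    simp only [map_mul, map_pow]
  rw [e1, e2] at hc
  have hl := cond_locT ((map_ne_zero_iff _ (algebraMap M F).injective).2 hD) hc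
  refine ⟨H.comp (C D * X), ?_, ?_⟩
  · rw [aeval_comp, map_mul, aeval_C, aeval_X]
  · have e4 : (H.map (algebraMap M F)).comp (C (algebraMap M F D) * X) =
      (H.comp (C D * X)).map (algebraMap M F) := by
      rw [Polynomial.map_comp]
      simp
    rw [e4] at hl
    exact hl

end one

section two

variable {K Kv M Ω : Type} [Field K] [Field Kv] [Field M] [Field Ω] [Algebra K Kv] [Algebra K M]
  [Algebra M Ω] {a b D : K}

/-- The condition at an embedding in a completion of `K`. -/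
theorem lat_of_emb (h6 : (6 : M) ≠ 0) (hD : D ≠ 0)
    (hd : 4 * (a * D ^ 2) ^ 3 + 27 * (b * D ^ 3) ^ 2 ≠ 0)
    (hinf : {z : Kv | ∃ w, w ≠ 0 ∧ w ^ 2 = z ^ 3 + algebraMap K Kv (a * D ^ 2) * z +
      algebraMap K Kv (b * D ^ 3)}.Infinite) {A B D' : M} (hA : A = algebraMap K M a)
    (hB : B = algebraMap K M b) (hD' : D' = algebraMap K M D)
    {f : (Sep M ≃ₐ[M] Sep M) → Pt (sW (A * D' ^ 2) (B * D' ^ 3)) (Sep M)}
    (hf2 : ∀ σ, (2 : ℕ) • f σ = 0)
    {β : Sep M → Sep M} {H : M[X]} (hβ : IsBeta (A * D' ^ 2) (B * D' ^ 3) f β)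
    (hh : ∀ t : Sep M, Rt (A * D' ^ 2) (B * D' ^ 3) t → aeval t H = β t ^ 2)
    (hloc : LocAbove K Kv (sW (A * D' ^ 2) (B * D' ^ 3)) f) (θ : Ω) (j : M →ₐ[K] Kv) :
    LAt θ A B D' (j : M →+* Kv) (aeval (algebraMap M Ω D' * θ) H) := by
  letI : Algebra M Kv := (j : M →+* Kv).toAlgebra
  haveI : IsScalarTower K M Kv := IsScalarTower.of_algebraMap_eq fun x => (j.commutes x).symm
  have h1 : LocTriv (sW (A * D' ^ 2) (B * D' ^ 3)) Kv (Sep Kv) f := by
    refine hloc Kv ?_
    rw [eq_top_iff]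
    intro x _
    exact IntermediateField.algebraMap_mem _ x
  have hm : ∀ x : K, algebraMap M Kv (algebraMap K M x) = algebraMap K Kv x := fun x =>
    (IsScalarTower.algebraMap_apply K M Kv x).symm
  have e1 : A * D' ^ 2 = algebraMap K M (a * D ^ 2) := by rw [hA, hD', map_mul, map_pow]
  have e2 : B * D' ^ 3 = algebraMap K M (b * D ^ 3) := by rw [hB, hD', map_mul, map_pow]
  refine lat_of_loc h6 ?_ ?_ ?_ hf2 hβ hh h1 θ
  · rw [hD']
    exact (_root_.map_ne_zero _).2 hD
  · rw [e1, e2]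
    intro h0
    apply hd
    apply (algebraMap K M).injective
    rw [map_zero, ← h0, map_add, map_mul, map_mul, map_pow, map_pow, map_ofNat, map_ofNat]
  · rw [e1, e2, hm, hm]
    exact hinf

end two

section three

variable {K Kv M E : Type} [Field K] [Field Kv] [Field M] [Field E] [Algebra K Kv] [Algebra K M]

/-- The condition over an extension of a completion of `K` and of `M`. -/
theorem cond_of_above (φ : Kv →+* E) (ψ : M →+* E)
    (hφψ : ∀ x : K, φ (algebraMap K Kv x) = ψ (algebraMap K M x)) (h6 : (6 : M) ≠ 0) {a b : K}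
    (hd : 4 * a ^ 3 + 27 * b ^ 2 ≠ 0)
    (hinf : {z : Kv | ∃ w, w ≠ 0 ∧ w ^ 2 = z ^ 3 + algebraMap K Kv a * z +
      algebraMap K Kv b}.Infinite) {A B : M} (hA : A = algebraMap K M a)
    (hB : B = algebraMap K M b)
    {f : (Sep M ≃ₐ[M] Sep M) → Pt (sW A B) (Sep M)}
    (hf2 : ∀ σ, (2 : ℕ) • f σ = 0)
    {β : Sep M → Sep M} {H : M[X]} (hβ : IsBeta A B f β)
    (hh : ∀ t : Sep M, Rt A B t → aeval t H = β t ^ 2)
    (hloc : LocAbove K Kv (sW A B) f) :
    Cond (ψ A) (ψ B) (H.map ψ) := by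
  letI : Algebra Kv E := φ.toAlgebra
  letI : Algebra K E := (φ.comp (algebraMap K Kv)).toAlgebra
  haveI : IsScalarTower K Kv E := IsScalarTower.of_algebraMap_eq fun x => rfl
  obtain ⟨F, hF⟩ : ∃ F : IntermediateField Kv E, F = IntermediateField.adjoin Kv (Set.range ψ) :=
    ⟨_, rfl⟩
  have hmem : ∀ x : M, ψ x ∈ F := fun x => by
    rw [hF]
    exact IntermediateField.subset_adjoin Kv _ ⟨x, rfl⟩
  letI : Algebra M F := (ψ.codRestrict F hmem).toAlgebra
  have hval : ∀ x : M, algebraMap F E (algebraMap M F x) = ψ x := fun x => rfl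
  haveI : IsScalarTower K M F := IsScalarTower.of_algebraMap_eq fun x => by
    apply (algebraMap F E).injective
    rw [hval, ← hφψ]
    rfl
  have htop : IntermediateField.adjoin Kv (Set.range (algebraMap M F)) = ⊤ := by
    apply IntermediateField.lift_injective F
    rw [IntermediateField.lift_top, IntermediateField.lift_adjoin, ← Set.range_comp]
    exact hF.symm
  have h1 := hloc F htop
  have hinfF : {z : F | ∃ w, w ≠ 0 ∧ w ^ 2 = z ^ 3 + algebraMap M F A * z +
      algebraMap M F B}.Infinite := by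
    refine (hinf.image (f := algebraMap Kv F) ((algebraMap Kv F).injective.injOn)).mono ?_
    rintro _ ⟨z, ⟨w, hw, hwz⟩, rfl⟩
    refine ⟨algebraMap Kv F w, (_root_.map_ne_zero _).2 hw, ?_⟩
    rw [hA, hB, ← IsScalarTower.algebraMap_apply K M F, ← IsScalarTower.algebraMap_apply K M F,
      IsScalarTower.algebraMap_apply K Kv F, IsScalarTower.algebraMap_apply K Kv F, ← map_pow, hwz]
    simp only [map_add, map_mul, map_pow]
  have hdM : 4 * A ^ 3 + 27 * B ^ 2 ≠ 0 := by
    intro h0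
    apply hd
    apply (algebraMap K M).injective
    rw [map_zero, ← h0, map_add, map_mul, map_mul, map_pow, map_pow, map_ofNat, map_ofNat, hA, hB]
  have hc := gl_gen h6 hdM hinfF f hf2 β H hβ hh h1
  have hc' := cond_map (algebraMap F E) hc
  rw [Polynomial.map_map] at hc'
  have e : (algebraMap F E).comp (algebraMap M F) = ψ := RingHom.ext fun x => rfl
  rw [e] at hc'
  exact hc'

end three

end Run7.h875.TM
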