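import Pool.Agent.Run7.h875.TM.Fld
import Pool.Agent.N273.PP.Fin
import Pool.Agent.N803.PM.FinM

/-!
# Twists over 2-extensions: Mordell-Weil and Tate-Shafarevich groups
-/

set_option autoImplicit false
set_option linter.all false

open Polynomial IsDedekindDomain WeierstrassCurve WeierstrassCurve.Affine
open Pool.Agent.TH115.GD Pool.Agent.N874.PP Pool.Agent.N874.PM Pool.Agent.N721.PP
open Run7.h875.TS
open scoped Classical IntermediateField

namespace Run7.h875.TM

/-- The 2-primary part of the Tate-Shafarevich group over `M` is zero. -/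
def ShaM (k K : Type) {M : Type} [Field k] [Field K] [Algebra k[X] K] [IsFractionRing k[X] K]
    [Field M] [Algebra K M] (W : WeierstrassCurve M) : Prop :=
  ∀ f : (Sep M ≃ₐ[M] Sep M) → Pt W (Sep M), IsCoc W f →
    (∀ v : HeightOneSpectrum k[X], LocAbove K (v.adicCompletion K) W f) →
    LocAbove K (CompInf k K) W f →
    (∃ (n : ℕ) (Q : Pt W (Sep M)), ∀ σ, 2 ^ n • f σ = act W (rs M σ) Q - Q) →
    ∃ Q : Pt W (Sep M), ∀ σ, f σ = act W (rs M σ) Q - Q

section laws

variable {K Kv M : Type} [Field K] [Field Kv] [Field M] [Algebra K Kv] [Algebra K M]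
  {W : WeierstrassCurve M}

theorem la_cob (R : Pt W (Sep M)) :
    LocAbove K Kv W (fun σ : Sep M ≃ₐ[M] Sep M => act W (rs M σ) R - R) :=
  fun F _ _ _ _ _ _ _ => cobL W R

theorem la_sub {f : (Sep M ≃ₐ[M] Sep M) → Pt W (Sep M)} (h : LocAbove K Kv W f)
    (S : Pt W (Sep M)) : LocAbove K Kv W (fun σ => f σ - (act W (rs M σ) S - S)) :=
  fun F _ _ _ _ _ _ ht => (h F ht).sub _ S

theorem la_smul {f : (Sep M ≃ₐ[M] Sep M) → Pt W (Sep M)} (h : LocAbove K Kv W f)
    (n : ℕ) : LocAbove K Kv W (fun σ => n • f σ) :=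
  fun F _ _ _ _ _ _ ht => ltSmul (h F ht) n

end laws

theorem gfM {k K M : Type} [Field k] [Field K] [Algebra k[X] K] [IsFractionRing k[X] K]
    [Field M] [Algebra K M] {A B : M} (h6 : (6 : M) ≠ 0) (hd : 4 * A ^ 3 + 27 * B ^ 2 ≠ 0)
    (hS : SelMZ k K (sW A B)) :
    (∀ P : Pt (sW A B) M, ∃ Q : Pt (sW A B) M, P = (2 : ℕ) • Q) ∧ ShaM k K (sW A B) := by
  haveI : Algebra.IsSeparable M (Sep M) := IsSepClosure.separable
  haveI : IsGalois M (Sep M) := inferInstance
  constructor
  · intro P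
    obtain ⟨R, hR⟩ := half h6 hd (act (sW A B) (incl M M (Sep M)) P)
    have hfix : ∀ σ : Sep M ≃ₐ[M] Sep M, act (sW A B) (rs M σ) (R + R) = R + R := fun σ => by
      rw [hR]; exact rs_act_incl _ σ P
    obtain ⟨T, hT2, hT⟩ := hS (fun σ => act (sW A B) (rs M σ) R - R) (cob_isCoc _ R)
      (fun σ => by
        rw [two_nsmul, sub_add_sub_comm, ← map_add, hfix, sub_self])
      (fun v => la_cob R) (la_cob R)
    obtain ⟨Q, hQ⟩ := fixed_point (K := M) (F := M) (sW A B) (R - T) (fun σ => by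
      have h1 := hT σ
      rw [map_sub]
      have h2 : act (sW A B) (rs M σ) R = R + (act (sW A B) (rs M σ) T - T) := by
        rw [← h1]; abel
      rw [h2]; abel)
    refine ⟨Q, act_inj (sW A B) (incl M M (Sep M)) ?_⟩
    rw [map_nsmul, hQ, smul_sub, hT2, sub_zero, two_nsmul, hR]
  · have key : ∀ g : (Sep M ≃ₐ[M] Sep M) → Pt (sW A B) (Sep M), IsCoc (sW A B) g →
        (∀ v : HeightOneSpectrum k[X], LocAbove K (v.adicCompletion K) (sW A B) g) →
        LocAbove K (CompInf k K) (sW A B) g →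
        (∃ R : Pt (sW A B) (Sep M), ∀ σ, 2 • g σ = act (sW A B) (rs M σ) R - R) →
        ∃ R : Pt (sW A B) (Sep M), ∀ σ, g σ = act (sW A B) (rs M σ) R - R := by
      rintro g hg hl hi ⟨R, hR⟩
      obtain ⟨S, hS'⟩ := half h6 hd R
      obtain ⟨T, -, hT⟩ := hS (fun σ => g σ - (act (sW A B) (rs M σ) S - S))
        (hg.sub _ (cob_isCoc _ _))
        (fun σ => by
          rw [smul_sub, hR, two_nsmul, sub_add_sub_comm, ← map_add, hS', sub_self])
        (fun v => la_sub (hl v) S) (la_sub hi S)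
      refine ⟨T + S, fun σ => ?_⟩
      have h1 := hT σ
      have h2 : g σ = (act (sW A B) (rs M σ) T - T) + (act (sW A B) (rs M σ) S - S) := by
        rw [← h1]; abel
      rw [h2, map_add]
      abel
    intro f hf hl hi ⟨n, hn⟩
    induction n with
    | zero =>
      obtain ⟨R, hR⟩ := hn
      exact ⟨R, fun σ => by rw [← hR, pow_zero, one_smul]⟩
    | succ n ih =>
      apply ih
      refine key (fun σ => 2 ^ n • f σ) ?_ ?_ ?_ ?_
      · refine ⟨hf.lc.comp (fun a => 2 ^ n • a), fun σ τ => ?_⟩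
        show 2 ^ n • f (σ * τ) = 2 ^ n • f σ + act (sW A B) (rs M σ) (2 ^ n • f τ)
        rw [hf.mul, map_nsmul, smul_add]
      · exact fun v => la_smul (hl v) _
      · exact la_smul hi _
      · obtain ⟨R, hR⟩ := hn
        refine ⟨R, fun σ => ?_⟩
        rw [← hR, pow_succ', mul_smul]

end Run7.h875.TM
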