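import Pool.Agent.Run7.h875.TM.Cnt
import Pool.Agent.Run7.h875.TM.Gf
import Pool.Agent.Run7.h875.Fin

/-!
# Twists over 2-extensions: the theorem
-/

set_option autoImplicit false
set_option linter.all false

open Polynomial IsDedekindDomain WeierstrassCurve WeierstrassCurve.Affine
open Pool.Agent.N874.PP Pool.Agent.TH115.GD
open Run7.h875.TS
open scoped Classical

namespace Run7.h875.TM

/-- The conditions on the extension `M`. -/
structure AdmM {k : Type} [Field k] (K M : Type) [Field K] [Algebra k[X] K]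
    [IsFractionRing k[X] K] [Field M] [Algebra K M] [Algebra k[X] M] (a b D : k[X]) : Prop where
  split : ∀ v : HeightOneSpectrum k[X],
    D ∈ v.asIdeal ∨ 4 * a ^ 3 + 27 * b ^ 2 ∈ v.asIdeal ^ 2 →
      Nonempty (M →ₐ[K] v.adicCompletion K)
  inf : Nonempty (M →ₐ[K] CompInf k K)
  unr : ∀ P : k[X], Irreducible P → (∃ z : k[X], P ∣ z ^ 3 + a * z + b) → ¬ P ∣ D →
    ¬ P ^ 2 ∣ 4 * a ^ 3 + 27 * b ^ 2 →
    ∀ w : HeightOneSpectrum (integralClosure k[X] M),
      algebraMap k[X] (integralClosure k[X] M) P ∈ w.asIdeal →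
        algebraMap k[X] (integralClosure k[X] M) P ∉ w.asIdeal ^ 2

/-- Over all the extensions. -/
def AllM {k : Type} [Field k] (K : Type) [Field K] [Algebra k[X] K] [IsFractionRing k[X] K]
    (a b D : k[X]) : Prop :=
  ∀ (M : Type) [Field M] [Algebra K M] [Algebra k[X] M] [IsScalarTower k[X] K M]
    [FiniteDimensional K M] [IsGalois K M] (m : ℕ), Module.finrank K M = 2 ^ m →
    AdmM K M a b D →
    Finite (Pt (sW (algebraMap k[X] M (a * D ^ 2)) (algebraMap k[X] M (b * D ^ 3))) M) ∧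
    Odd (Nat.card (Pt (sW (algebraMap k[X] M (a * D ^ 2)) (algebraMap k[X] M (b * D ^ 3))) M)) ∧
    ShaM k K (sW (algebraMap k[X] M (a * D ^ 2)) (algebraMap k[X] M (b * D ^ 3)))

theorem admT_of {k K M : Type} [Field k] [Field K] [Algebra k[X] K]
    [IsFractionRing k[X] K] [Field M] [Algebra K M] [Algebra k[X] M] [IsScalarTower k[X] K M]
    [FiniteDimensional K M] [IsGalois K M] [IsDedekindDomain (integralClosure k[X] M)]
    {a b D₀ D : k[X]} (h : AdmM K M a b (D₀ * D)) :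
    AdmT K M (integralClosure k[X] M) (a * D₀ ^ 2) (b * D₀ ^ 3) D where
  inf := h.inf
  split v hv := by
    refine h.split v ?_
    rcases hv with hv | hv
    · exact Or.inl (Ideal.mul_mem_left _ _ hv)
    · rw [dsc_tw] at hv
      by_cases h0 : D₀ ∈ v.asIdeal
      · exact Or.inl (Ideal.mul_mem_right _ _ h0)
      · right
        have hp : (v.asIdeal ^ 2).IsPrimary := by
          haveI := v.isMaximal
          exact Ideal.isPrimary_of_isMaximal_radical (by
            rw [Ideal.radical_pow _ two_ne_zero, v.isPrime.radical]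
            infer_instance)
        have h1 := (Ideal.isPrimary_iff.1 hp).2 (x := dsc a b) (y := D₀ ^ 6) (by
          rw [mul_comm]; exact hv)
        rcases h1 with h1 | h1
        · exact h1
        · rw [Ideal.radical_pow _ two_ne_zero, v.isPrime.radical] at h1
          exact absurd (v.isPrime.mem_of_pow_mem _ h1) h0
  unr P hP hg := by
    obtain ⟨⟨z, hz⟩, h1, h2⟩ := hg
    rw [dsc_tw] at h2
    have h3 : ¬ P ∣ D₀ := fun hd => h2 ((pow_dvd_pow_of_dvd hd 2).trans
      ((pow_dvd_pow D₀ (by norm_num : 2 ≤ 6)).trans (Dvd.intro _ rfl)))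
    refine h.unr P hP ?_ ?_ ?_
    · -- a zero
      obtain ⟨u, e, hue⟩ := (hP.coprime_iff_not_dvd).2 h3
      refine ⟨e * z, ?_⟩
      obtain ⟨c, hc⟩ := hz
      have he : e * D₀ = 1 - u * P := by linear_combination hue
      have e1 : (e * z) ^ 3 + a * (e * z) + b = e ^ 3 * (z ^ 3 + a * D₀ ^ 2 * z + b * D₀ ^ 3) +
          (a * (e * z) * (1 - (e * D₀) ^ 2) + b * (1 - (e * D₀) ^ 3)) := by ring
      rw [e1, hc, he]
      exact ⟨e ^ 3 * c + (a * (e * z) * (2 * u - u ^ 2 * P) +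
        b * (3 * u - 3 * u ^ 2 * P + u ^ 3 * P ^ 2)), by ring⟩
    · intro h4
      rcases hP.prime.dvd_or_dvd h4 with h5 | h5
      · exact h3 h5
      · exact h1 h5
    · intro h4
      exact h2 (Dvd.dvd.mul_left h4 _)

theorem allM_of {k : Type} [Field k] [Finite k] (h6 : (6 : k) ≠ 0) {K : Type} [Field K]
    [Algebra k[X] K] [IsFractionRing k[X] K] {a b D₀ D : k[X]}
    (pk : Pack k K (a * D₀ ^ 2) (b * D₀ ^ 3)) (h0 : D₀ ≠ 0) (hd : dsc a b ≠ 0)
    (hD : GoodD (a * D₀ ^ 2) (b * D₀ ^ 3) D)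
    (hsel : ∀ α : pk.L, SelC pk.cub pk.O (prD D) (fun P => D / P) α → IsSquare α) :
    AllM K a b (D₀ * D) := by
  intro M _ _ _ _ _ _ m hM hA
  haveI : Algebra.IsSeparable K M := inferInstance
  haveI : IsDedekindDomain (integralClosure k[X] M) := integralClosure.isDedekindDomain k[X] K M
  haveI : IsFractionRing (integralClosure k[X] M) M :=
    integralClosure.isFractionRing_of_finite_extension K M
  have hd' : dsc (a * D₀ ^ 2) (b * D₀ ^ 3) ≠ 0 := by
    rw [dsc_tw]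
    exact mul_ne_zero (pow_ne_zero _ h0) hd
  have h1 := selM Pool.Agent.N874.PM.parts K pk.L pk.O h6 pk.cub hd' hD hsel M
    (integralClosure k[X] M) hM (admT_of hA)
  have e1 : algebraMap k[X] M (a * D₀ ^ 2) * (algebraMap k[X] M D) ^ 2 =
      algebraMap k[X] M (a * (D₀ * D) ^ 2) := by
    simp only [map_mul, map_pow]
    ring
  have e2 : algebraMap k[X] M (b * D₀ ^ 3) * (algebraMap k[X] M D) ^ 3 =
      algebraMap k[X] M (b * (D₀ * D) ^ 3) := by
    simp only [map_mul, map_pow]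
    ring
  rw [e1, e2] at h1
  have inj : Function.Injective (algebraMap k[X] M) := by
    rw [IsScalarTower.algebraMap_eq k[X] K M]
    exact (algebraMap K M).injective.comp (IsFractionRing.injective k[X] K)
  have h6M : (6 : M) ≠ 0 := by
    have e : algebraMap k[X] M (C (6 : k)) = 6 := by
      rw [show (C (6 : k) : k[X]) = 6 from rfl, map_ofNat]
    rw [← e, Ne, map_eq_zero_iff _ inj, C_eq_zero]
    exact h6
  have hdd : 4 * (a * (D₀ * D) ^ 2) ^ 3 + 27 * (b * (D₀ * D) ^ 3) ^ 2 ≠ 0 := by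
    have e : 4 * (a * (D₀ * D) ^ 2) ^ 3 + 27 * (b * (D₀ * D) ^ 3) ^ 2 =
        (D₀ * D) ^ 6 * dsc a b := by
      unfold dsc
      ring
    rw [e]
    exact mul_ne_zero (pow_ne_zero _ (mul_ne_zero h0 hD.mon.ne_zero)) hd
  have hdM : 4 * (algebraMap k[X] M (a * (D₀ * D) ^ 2)) ^ 3 +
      27 * (algebraMap k[X] M (b * (D₀ * D) ^ 3)) ^ 2 ≠ 0 := by
    intro h0
    apply hdd
    rw [← map_eq_zero_iff _ inj]
    simpa only [map_add, map_mul, map_pow, map_ofNat] using h0
  have hdK : 4 * (algebraMap k[X] K (a * (D₀ * D) ^ 2)) ^ 3 +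
      27 * (algebraMap k[X] K (b * (D₀ * D) ^ 3)) ^ 2 ≠ 0 := by
    intro h0
    apply hdd
    rw [← map_eq_zero_iff _ (IsFractionRing.injective k[X] K)]
    simpa only [map_add, map_mul, map_pow, map_ofNat] using h0
  obtain ⟨hdiv, hsha⟩ := gfM h6M hdM h1
  have h4 := Pool.Agent.N803.PM.finm k K M (algebraMap k[X] K (a * (D₀ * D) ^ 2))
    (algebraMap k[X] K (b * (D₀ * D) ^ 3)) h6 hdK
  rw [← IsScalarTower.algebraMap_apply k[X] K M,
    ← IsScalarTower.algebraMap_apply k[X] K M] at h4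
  haveI := h4 hdiv
  exact ⟨h4 hdiv, odd_card' hdiv, hsha⟩

theorem finM (k ι : Type) [Field k] [Finite k] [Finite ι] (a b p : ι → k[X]) (h6 : (6 : k) ≠ 0)
    (hD : Data a b p) (T : Finset k[X]) (hT : ∀ P ∈ T, Irreducible P ∧ ∀ i, ¬ P ∣ p i) (D₀ : k[X])
    (hs : Squarefree D₀) (hp : ∀ i, ¬ p i ∣ D₀) (K : Type) [Field K] [Algebra k[X] K]
    [IsFractionRing k[X] K] :
    ∃ c : ℝ, 0 < c ∧ ∃ N₀ : ℕ, ∀ n ≥ N₀, Even (n + D₀.natDegree) →
      c * (Nat.card k : ℝ) ^ n ≤
        ({D : k[X] | D.natDegree = n ∧ Squarefree D ∧ (∃ D₁ : k[X], D₁.Monic ∧ D = D₀ * D₁ ∧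
          ∀ P ∈ T, ∃ z : k[X], ¬ P ∣ z ∧ P ∣ z ^ 2 - D₁) ∧
          ∀ i, AllM K (a i) (b i) D}.ncard : ℝ) := by
  haveI := Fintype.ofFinite ι
  have h0 : D₀ ≠ 0 := hs.ne_zero
  set T₁ : Finset k[X] := T.image normalize ∪ prD D₀ with hT₁
  have hadm : AdT p T₁ := by
    intro P hP
    rw [hT₁, Finset.mem_union] at hP
    rcases hP with hP | hP
    · obtain ⟨Q, hQ, rfl⟩ := Finset.mem_image.1 hP
      have ha : Associated (normalize Q) Q := normalize_associated Q
      refine ⟨monic_normalize (hT Q hQ).1.ne_zero, ha.symm.irreducible (hT Q hQ).1, fun i hi => ?_⟩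
      exact (hT Q hQ).2 i ((ha.dvd_iff_dvd_left).1 hi)
    · have h1 := (mem_prD h0).1 hP
      refine ⟨h1.1, h1.2.1, fun i hi => hp i ?_⟩
      exact ((h1.2.1.associated_of_dvd (hD.pirr i) hi).dvd_iff_dvd_left).1 h1.2.2
  have hDt := data_tw hD h0 hp
  have pk : ∀ i, Pack k K (a i * D₀ ^ 2) (b i * D₀ ^ 3) := fun i =>
    (exists_pack k K _ _ h6 (hDt.irr i)).some
  obtain ⟨c, hc, N₀, h⟩ := finS k ι _ _ p h6 hDt T₁ hadm K pk
  have hq : (0 : ℝ) < (Nat.card k : ℝ) := by exact_mod_cast (Finite.card_pos : 0 < Nat.card k)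
  refine ⟨c / (Nat.card k : ℝ) ^ D₀.natDegree, by positivity, N₀ + D₀.natDegree, ?_⟩
  intro n hn hev
  obtain ⟨m, rfl⟩ : ∃ m, n = m + D₀.natDegree := ⟨n - D₀.natDegree, by omega⟩
  have hm : Even m := by
    rw [add_assoc, Nat.even_add] at hev
    exact hev.2 ⟨D₀.natDegree, rfl⟩
  have h1 := h m (by omega) hm
  have h2 : c / (Nat.card k : ℝ) ^ D₀.natDegree * (Nat.card k : ℝ) ^ (m + D₀.natDegree) =
      c * (Nat.card k : ℝ) ^ m := by
    rw [pow_add]
    field_simp
  rw [h2]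
  refine h1.trans ?_
  rw [Nat.cast_le, ← Set.ncard_image_of_injective _ (mul_right_injective₀ h0 : Function.Injective
    fun D : k[X] => D₀ * D)]
  refine Set.ncard_le_ncard ?_ ((fin_deg k _).subset fun D hD => hD.1)
  rintro _ ⟨D, ⟨d1, d2, d3, d4, d6⟩, rfl⟩
  have hnd : ∀ P : k[X], Irreducible P → P ∣ D₀ → ¬ P ∣ D := by
    intro P hP hPD hPD'
    have ha : Associated (normalize P) P := normalize_associated P
    have hn : normalize P ∈ T₁ := by
      rw [hT₁, Finset.mem_union, mem_prD h0]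
      exact Or.inr ⟨monic_normalize hP.ne_zero, ha.symm.irreducible hP,
        (ha.dvd_iff_dvd_left).2 hPD⟩
    obtain ⟨z, hz1, hz2⟩ := d6 _ hn
    rw [ha.dvd_iff_dvd_left] at hz1 hz2
    apply hz1
    apply hP.prime.dvd_of_dvd_pow (n := 2)
    have := dvd_add hz2 hPD'
    simpa using this
  have hrel : IsRelPrime D₀ D := by
    refine IsCoprime.isRelPrime ?_
    apply isCoprime_of_prime_dvd
    · exact fun h => h0 h.1
    · intro P hP h1 h2
      exact hnd P hP.irreducible h1 h2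
  refine ⟨?_, ?_, ⟨D, d1, rfl, ?_⟩, fun i => allM_of h6 (pk i) h0 (dsc_ne hD i) (d4 i).1 (d4 i).2⟩
  · show (D₀ * D).natDegree = _
    rw [natDegree_mul h0 d1.ne_zero, d2, add_comm]
  · exact squarefree_mul_iff.2 ⟨hrel, hs, d3⟩
  · intro P hP
    have ha : Associated (normalize P) P := normalize_associated P
    obtain ⟨z, hz1, hz2⟩ := d6 (normalize P) (by
      rw [hT₁]
      exact Finset.mem_union_left _ (Finset.mem_image_of_mem _ hP))
    rw [ha.dvd_iff_dvd_left] at hz1 hz2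
    exact ⟨z, hz1, hz2⟩

end Run7.h875.TM
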