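import Pool.Agent.Run7.h875.TM.Sel
import Pool.Agent.N874.PP.Sel2

/-!
# Twists over 2-extensions: the cubic extension of `M`
-/

set_option autoImplicit false
set_option linter.all false

open Polynomial IsDedekindDomain WeierstrassCurve WeierstrassCurve.Affine
open Pool.Agent.TH115.GD Pool.Agent.N874.PP Pool.Agent.N874.PM
open Run7.h875.TS
open scoped Classical IntermediateField

namespace Run7.h875.TM

/-- Embedding of the cubic field. -/
theorem exists_emb {k K L Ω : Type} [Field k] [Field K] [Algebra k[X] K] [IsFractionRing k[X] K]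
    [Field L] [Algebra K L] [Algebra k[X] L] [IsScalarTower k[X] K L] [Field Ω] [Algebra K Ω]
    {a b : k[X]} {θ : L} (h : IsCub K a b θ) {t : Ω}
    (ht : aeval t (FF K a b) = 0) : ∃ φ : L →ₐ[K] Ω, φ θ = t := by
  have hirr : Irreducible (FF K a b) := by
    have := irrAB h (D := 1) one_ne_zero
    rw [one_pow, one_pow, mul_one, mul_one] at this
    exact this
  have hroot : aeval θ (FF K a b) = 0 := by
    unfold FF
    simp only [map_add, map_mul, map_pow, aeval_X, aeval_C]
    rw [← IsScalarTower.algebraMap_apply k[X] K L, ← IsScalarTower.algebraMap_apply k[X] K L]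
    exact h.root
  haveI : FiniteDimensional K L := Module.finite_of_finrank_pos (by rw [h.rank]; norm_num)
  have hmin : minpoly K θ = FF K a b :=
    (minpoly.eq_of_irreducible_of_monic hirr hroot (FF_monic a b)).symm
  have htop : K⟮θ⟯ = ⊤ := by
    rw [Field.primitive_element_iff_minpoly_natDegree_eq, hmin, FF_deg, h.rank]
  have hint : IsIntegral K θ := ⟨_, FF_monic a b, by rw [← aeval_def]; exact hroot⟩
  let e1 : K⟮θ⟯ →ₐ[K] Ω := (IntermediateField.adjoin.powerBasis hint).lift t (by
    rw [IntermediateField.adjoin.powerBasis_gen, IntermediateField.minpoly_gen, hmin]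
    exact ht)
  have h1 : e1 (IntermediateField.AdjoinSimple.gen K θ) = t := by
    have := PowerBasis.lift_gen (IntermediateField.adjoin.powerBasis hint) t (by
      rw [IntermediateField.adjoin.powerBasis_gen, IntermediateField.minpoly_gen, hmin]
      exact ht)
    exact (congrArg e1 (IntermediateField.adjoin.powerBasis_gen hint)).symm.trans this
  let e2 : L →ₐ[K] K⟮θ⟯ :=
    (IntermediateField.inclusion (le_of_eq htop.symm)).comp
      (IntermediateField.topEquiv (F := K) (E := L)).symm.toAlgHom
  refine ⟨e1.comp e2, ?_⟩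
  rw [← h1]
  show e1 (e2 θ) = _
  congr 1

theorem selM (H : Parts) {k : Type} [Field k] [Finite k] (K L O : Type) [Field K]
    [Algebra k[X] K] [IsFractionRing k[X] K]
    [Field L] [Algebra K L] [Algebra k[X] L] [IsScalarTower k[X] K L]
    [CommRing O] [IsDedekindDomain O] [Algebra O L] [IsFractionRing O L] [Algebra k[X] O]
    [IsScalarTower k[X] O L] [IsIntegralClosure O k[X] L]
    {a b : k[X]} {θ : L} (h6 : (6 : k) ≠ 0) (hc : IsCub K a b θ)
    (hd : dsc a b ≠ 0) {D : k[X]} (hD : GoodD a b D)
    (hsel : ∀ α : L, SelC hc O (prD D) (fun P => D / P) α → IsSquare α)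
    (M : Type) [Field M] [Algebra K M] [Algebra k[X] M] [IsScalarTower k[X] K M]
    [FiniteDimensional K M] [IsGalois K M] (R : Type)
    [CommRing R] [IsDedekindDomain R] [Algebra R M] [IsFractionRing R M] [Algebra k[X] R]
    [IsScalarTower k[X] R M] [IsIntegralClosure R k[X] M] {n : ℕ}
    (hM : Module.finrank K M = 2 ^ n) (hA : AdmT K M R a b D) :
    SelMZ k K (sW (algebraMap k[X] M a * (algebraMap k[X] M D) ^ 2)
      (algebraMap k[X] M b * (algebraMap k[X] M D) ^ 3)) := by
  haveI : Module.Finite k[X] O := Run7.h225.TS.Ovr.fin_O (K := K) (L := L) hc hd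
  haveI : Module.Finite k[X] R := IsIntegralClosure.finite k[X] K M R
  have h6K : (6 : K) ≠ 0 := by
    have : (6 : K) = algebraMap k[X] K (C 6) := by
      rw [show (C (6 : k) : k[X]) = 6 from rfl, map_ofNat]
    rw [this, Ne, IsFractionRing.to_map_eq_zero_iff, C_eq_zero]
    exact h6
  have hirrM : ∀ D : k[X], D ≠ 0 → Irreducible (X ^ 3 + C (algebraMap k[X] M (a * D ^ 2)) * X +
      C (algebraMap k[X] M (b * D ^ 3)) : M[X]) := by
    intro D hD
    have h := irr_up hM (irrAB hc hD)
    rwa [← IsScalarTower.algebraMap_apply k[X] K M, ← IsScalarTower.algebraMap_apply k[X] K M] at h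
  haveI hfactM : Fact (Irreducible (FF M a b)) := ⟨by
    have := hirrM 1 one_ne_zero
    rw [one_pow, one_pow, mul_one, mul_one] at this
    exact this⟩
  have hFm : (FF M a b).Monic := by
    unfold FF
    monicity!
  have hFd : (FF M a b).natDegree = 3 := by
    unfold FF
    compute_degree!
  have hFmap : FF M a b = (FF K a b).map (algebraMap K M) := by
    unfold FF
    simp only [Polynomial.map_add, Polynomial.map_mul, Polynomial.map_pow, map_X, map_C,
      ← IsScalarTower.algebraMap_apply k[X] K M]
  obtain ⟨Ω, instF, instA, t, ht, hr, htop, hfin, hmin⟩ := exists_field hfactM.out hFm hFd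
  letI : Algebra K Ω := ((algebraMap M Ω).comp (algebraMap K M)).toAlgebra
  haveI : IsScalarTower K M Ω := IsScalarTower.of_algebraMap_eq fun x => rfl
  letI : Algebra k[X] Ω := ((algebraMap M Ω).comp (algebraMap k[X] M)).toAlgebra
  haveI : IsScalarTower k[X] M Ω := IsScalarTower.of_algebraMap_eq fun x => rfl
  have ht' : aeval t (FF K a b) = 0 := by
    rw [hFmap, aeval_map_algebraMap] at ht
    exact ht
  obtain ⟨φ, hφ⟩ := exists_emb hc ht'
  letI : Algebra L Ω := (φ : L →+* Ω).toAlgebra
  haveI : IsScalarTower K L Ω := IsScalarTower.of_algebraMap_eq fun x => (φ.commutes x).symm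
  haveI : IsScalarTower k[X] K Ω := by
    refine IsScalarTower.of_algebraMap_eq fun x => ?_
    rw [IsScalarTower.algebraMap_apply k[X] M Ω, IsScalarTower.algebraMap_apply k[X] K M,
      ← IsScalarTower.algebraMap_apply K M Ω]
  haveI : IsScalarTower k[X] L Ω := by
    refine IsScalarTower.of_algebraMap_eq fun x => ?_
    rw [IsScalarTower.algebraMap_apply k[X] K L,
      ← IsScalarTower.algebraMap_apply K L Ω, ← IsScalarTower.algebraMap_apply k[X] K Ω]
  haveI : FiniteDimensional K Ω := FiniteDimensional.trans K M Ω
  have h6M : (6 : M) ≠ 0 := by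
    have e : (6 : M) = algebraMap K M 6 := by rw [map_ofNat]
    rw [e, Ne, map_eq_zero]
    exact h6K
  haveI : Algebra.IsSeparable M Ω := by
    have hs : (FF M a b).Separable := by
      rw [separable_iff_derivative_ne_zero hfactM.out]
      intro h0
      have h1 : (derivative (FF M a b)).coeff 2 = 3 := by
        rw [coeff_derivative]
        simp [FF, coeff_X, coeff_C]
        norm_num
      rw [h0, coeff_zero] at h1
      apply h6M
      rw [show (6 : M) = 2 * 3 by norm_num, ← h1, mul_zero]
    have hsep : IsSeparable M t := by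
      unfold IsSeparable
      rw [hmin]
      exact hs
    haveI := (IntermediateField.isSeparable_adjoin_simple_iff_isSeparable M Ω).2 hsep
    rw [htop] at this
    exact AlgEquiv.Algebra.isSeparable (IntermediateField.topEquiv (F := M) (E := Ω))
  haveI : Algebra.IsSeparable K Ω := Algebra.IsSeparable.trans K M Ω
  haveI : IsDedekindDomain (integralClosure k[X] Ω) := integralClosure.isDedekindDomain k[X] K Ω
  haveI : IsFractionRing (integralClosure k[X] Ω) Ω :=
    integralClosure.isFractionRing_of_finite_extension K Ω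
  haveI : Module.Finite k[X] (integralClosure k[X] Ω) := IsIntegralClosure.finite k[X] K Ω _
  exact selM_abs O (integralClosure k[X] Ω) R H h6 hc hd hD hA hsel hM hr hirrM

end Run7.h875.TM
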