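import Pool.Agent.Run7.h875.TS.Conc3
import Pool.Agent.Run7.h875.TS.Conc4
import Pool.Agent.Run7.h875.Up
import Pool.Agent.TH115.TC.Compl

/-!
# Twists over 2-extensions: the local conditions
-/

set_option autoImplicit false
set_option linter.all false

open Polynomial IsDedekindDomain WeierstrassCurve WeierstrassCurve.Affine
open Pool.Agent.TH115.GD Pool.Agent.N874.PP Pool.Agent.N199.PP
open Run7.h875.TS
open scoped Classical IntermediateField

namespace Run7.h875.TM

/-- `M` is an extension of `K` and `Kv` a completion of `K`. The cochain `f` is a coboundary over all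
the completions of `M` at the places above the one of `Kv`: these are the fields `F` with
`K`-homomorphisms from `Kv` and from `M`, which are generated by the images. -/
def LocAbove (K Kv : Type) {M : Type} [Field K] [Field Kv] [Field M] [Algebra K Kv] [Algebra K M]
    (W : WeierstrassCurve M) (f : (Sep M ≃ₐ[M] Sep M) → Pt W (Sep M)) : Prop :=
  ∀ (F : Type) [Field F] [Algebra K F] [Algebra Kv F] [Algebra M F] [IsScalarTower K Kv F]
    [IsScalarTower K M F], IntermediateField.adjoin Kv (Set.range (algebraMap M F)) = ⊤ →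
    LocTriv W F (Sep F) f

/-- The local condition for `x = h(θ)`, `h` a polynomial over `M`, at a homomorphism `j : M → F`, for
the twist by `D` of `y ^ 2 = x ^ 3 + a x + b`. -/
def LAt {M Ω F : Type} [Field M] [Field Ω] [Field F] [Algebra M Ω] (θ : Ω) (a b D : M) (j : M →+* F)
    (x : Ω) : Prop :=
  ∃ h : M[X], aeval θ h = x ∧ LocT (j a) (j b) (j D) (h.map j)

theorem cond_map {F E : Type} [Field F] [Field E] (φ : F →+* E) {a b : F} {h : F[X]}
    (hc : Cond a b h) : Cond (φ a) (φ b) (h.map φ) := by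
  have e : cub (φ a) (φ b) = (cub a b).map φ := by
    unfold cub
    simp
  rcases hc with ⟨g, hg⟩ | ⟨x, y, hy, hxy, g, hg⟩
  · left
    refine ⟨g.map φ, ?_⟩
    rw [e, ← Polynomial.map_pow, ← Polynomial.map_sub]
    exact Polynomial.map_dvd φ hg
  · right
    refine ⟨φ x, φ y, (map_ne_zero φ).2 hy, ?_, g.map φ, ?_⟩
    · rw [← map_pow, hxy]
      simp
    · rw [e]
      have := Polynomial.map_dvd φ hg
      rw [Polynomial.map_sub, Polynomial.map_mul, Polynomial.map_pow, Polynomial.map_sub, map_C,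
        map_X] at this
      exact this

section laws

variable {M Ω F : Type} [Field M] [Field Ω] [Field F] [Algebra M Ω] {θ : Ω} {a b D : M}

theorem lat_sq (hgen : ∀ y : Ω, ∃ g : M[X], aeval θ g = y) (j : M →+* F) (x : Ω) :
    LAt θ a b D j (x ^ 2) := by
  obtain ⟨g, rfl⟩ := hgen x
  refine ⟨g ^ 2, by rw [map_pow], Or.inl ⟨g.map j, ?_⟩⟩
  rw [Polynomial.map_pow, sub_self]
  exact dvd_zero _

theorem map_cub (j : M →+* F) : (X ^ 3 + C a * X + C b : M[X]).map j =
    X ^ 3 + C (j a) * X + C (j b) := by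
  simp

theorem cop_of_ne (hirr : Irreducible (X ^ 3 + C a * X + C b : M[X]))
    (hroot : aeval θ (X ^ 3 + C a * X + C b : M[X]) = 0) {h : M[X]} (h0 : aeval θ h ≠ 0)
    (j : M →+* F) : IsCoprime (X ^ 3 + C (j a) * X + C (j b)) (h.map j) := by
  have h1 : IsCoprime (X ^ 3 + C a * X + C b : M[X]) h := by
    rw [hirr.coprime_iff_not_dvd]
    rintro ⟨q, rfl⟩
    apply h0
    rw [map_mul, hroot, zero_mul]
  rw [← map_cub]
  exact h1.map (Polynomial.mapRingHom j)

theorem lat_mul (h6 : (6 : F) ≠ 0) (hirr : Irreducible (X ^ 3 + C a * X + C b : M[X]))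
    (hroot : aeval θ (X ^ 3 + C a * X + C b : M[X]) = 0) (hd : 4 * a ^ 3 + 27 * b ^ 2 ≠ 0)
    (hD : D ≠ 0) (j : M →+* F)
    (hinf : {z : F | ∃ w : F, w ≠ 0 ∧ w ^ 2 = j D * (z ^ 3 + j a * z + j b)}.Infinite) {x y : Ω}
    (hx : x ≠ 0) (hy : y ≠ 0) (h1 : LAt θ a b D j x) (h2 : LAt θ a b D j y) :
    LAt θ a b D j (x * y) := by
  obtain ⟨h, rfl, hl⟩ := h1
  obtain ⟨h', rfl, hl'⟩ := h2
  refine ⟨h * h', by rw [map_mul], ?_⟩
  rw [Polynomial.map_mul]
  refine Run7.h225.TS.LTM.ltm F (j a) (j b) (j D) h6 ?_ ((map_ne_zero j).2 hD) hinf _ _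
    (cop_of_ne hirr hroot hx j) (cop_of_ne hirr hroot hy j) hl hl'
  intro h0
  apply hd
  apply j.injective
  rw [map_zero, ← h0, map_add, map_mul, map_mul, map_pow, map_pow, map_ofNat, map_ofNat]

theorem lat_congr (hirr : Irreducible (X ^ 3 + C a * X + C b : M[X]))
    (hroot : aeval θ (X ^ 3 + C a * X + C b : M[X]) = 0) {j : M →+* F} {h : M[X]}
    (hl : LAt θ a b D j (aeval θ h)) : LocT (j a) (j b) (j D) (h.map j) := by
  obtain ⟨h', he, hl'⟩ := hl
  refine Run7.h225.TS.GRP.locT_congr ?_ hl'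
  rw [← Polynomial.map_sub, ← map_cub]
  apply Polynomial.map_dvd
  have hm : (X ^ 3 + C a * X + C b : M[X]).Monic := by monicity!
  have h1 : minpoly M θ = X ^ 3 + C a * X + C b := (minpoly.eq_of_irreducible_of_monic hirr hroot hm).symm
  rw [← h1]
  apply minpoly.dvd
  rw [map_sub, he, sub_self]

theorem lat_sig {j : M →+* F} {x : Ω} (τ : M →+* M) (σ : Ω →+* Ω) (hσ : σ θ = θ)
    (hτ : ∀ y, algebraMap M Ω (τ y) = σ (algebraMap M Ω y)) (ha : τ a = a) (hb : τ b = b)
    (hD : τ D = D) (h : LAt θ a b D (j.comp τ) x) : LAt θ a b D j (σ x) := by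
  obtain ⟨h, rfl, hl⟩ := h
  refine ⟨h.map τ, ?_, ?_⟩
  · rw [aeval_def, eval₂_map, aeval_def, hom_eval₂, hσ]
    congr 1
    ext y
    exact hτ y
  · rw [Polynomial.map_map]
    simp only [RingHom.comp_apply, ha, hb, hD] at hl
    exact hl

end laws

end Run7.h875.TM
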