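import Pool.Agent.Run7.h875.TM.Base
import Pool.Agent.Run7.h875.Sel

/-!
# Twists over 2-extensions: the 2-Selmer group over `M`
-/

set_option autoImplicit false
set_option linter.all false

open Polynomial IsDedekindDomain WeierstrassCurve WeierstrassCurve.Affine
open Pool.Agent.TH115.GD Pool.Agent.N874.PP Pool.Agent.N874.PM
open Run7.h875.TS
open scoped Classical IntermediateField

namespace Run7.h875.TM

/-- The 2-Selmer group over `M` is zero. -/
def SelMZ (k K : Type) {M : Type} [Field k] [Field K] [Algebra k[X] K] [IsFractionRing k[X] K]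
    [Field M] [Algebra K M] (W : WeierstrassCurve M) : Prop :=
  ∀ f : (Sep M ≃ₐ[M] Sep M) → Pt W (Sep M), IsCoc W f → (∀ σ, (2 : ℕ) • f σ = 0) →
    (∀ v : HeightOneSpectrum k[X], LocAbove K (v.adicCompletion K) W f) →
    LocAbove K (CompInf k K) W f →
    ∃ T : Pt W (Sep M), (2 : ℕ) • T = 0 ∧ ∀ σ, f σ = act W (rs M σ) T - T

theorem gen_of {M Ω : Type} [Field M] [Field Ω] [Algebra M Ω] [FiniteDimensional M Ω]
    {A B : M} {θ : Ω} (hΩ : Module.finrank M Ω = 3)
    (hirr : Irreducible (X ^ 3 + C A * X + C B : M[X]))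
    (hroot : aeval θ (X ^ 3 + C A * X + C B : M[X]) = 0) (y : Ω) :
    ∃ g : M[X], aeval θ g = y := by
  have hm : (X ^ 3 + C A * X + C B : M[X]).Monic := by monicity!
  have hdeg : (X ^ 3 + C A * X + C B : M[X]).natDegree = 3 := by compute_degree!
  have h1 : minpoly M θ = X ^ 3 + C A * X + C B :=
    (minpoly.eq_of_irreducible_of_monic hirr hroot hm).symm
  have h2 : M⟮θ⟯ = ⊤ := by
    rw [Field.primitive_element_iff_minpoly_natDegree_eq, h1, hdeg, hΩ]
  have h3 : y ∈ M⟮θ⟯ := by rw [h2]; trivial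
  have hint : IsIntegral M θ := ⟨_, hm, by rw [← aeval_def]; exact hroot⟩
  have h4 : y ∈ Algebra.adjoin M {θ} := by
    rw [← IntermediateField.adjoin_simple_toSubalgebra_of_isAlgebraic hint.isAlgebraic]
    exact h3
  rw [Algebra.adjoin_singleton_eq_range_aeval] at h4
  obtain ⟨g, hg⟩ := h4
  exact ⟨g, hg⟩

section abs

variable {k K L M Ω : Type} (O O' R : Type) [Field k] [Finite k] [Field K] [Field L] [Field M]
  [Field Ω]
  [Algebra k[X] K] [IsFractionRing k[X] K]
  [Algebra K L] [Algebra k[X] L] [IsScalarTower k[X] K L]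
  [Algebra K M] [Algebra k[X] M] [IsScalarTower k[X] K M]
  [Algebra L Ω] [Algebra M Ω] [Algebra K Ω] [IsScalarTower K L Ω] [IsScalarTower K M Ω]
  [Algebra k[X] Ω] [IsScalarTower k[X] L Ω] [IsScalarTower k[X] M Ω]
  [CommRing O] [IsDedekindDomain O] [Algebra O L] [IsFractionRing O L] [Algebra k[X] O]
  [IsScalarTower k[X] O L] [IsIntegralClosure O k[X] L] [Module.Finite k[X] O]
  [CommRing O'] [IsDedekindDomain O'] [Algebra O' Ω] [IsFractionRing O' Ω] [Algebra k[X] O']
  [IsScalarTower k[X] O' Ω] [IsIntegralClosure O' k[X] Ω] [Module.Finite k[X] O']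
  [CommRing R] [IsDedekindDomain R] [Algebra R M] [IsFractionRing R M] [Algebra k[X] R]
  [IsScalarTower k[X] R M] [IsIntegralClosure R k[X] M] [Module.Finite k[X] R] [IsGalois K M]
  [FiniteDimensional K M] [FiniteDimensional K Ω] [Algebra.IsSeparable K Ω]

include Ω O O' in
theorem selM_abs (H : Parts) {a b : k[X]} {θ : L} (h6 : (6 : k) ≠ 0) (hc : IsCub K a b θ)
    (hd : dsc a b ≠ 0) {D : k[X]} (hD : GoodD a b D) (hA : AdmT K M R a b D)
    (hsel : ∀ α : L, SelC hc O (prD D) (fun P => D / P) α → IsSquare α)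
    {n : ℕ} (hM : Module.finrank K M = 2 ^ n) (hΩ : Module.finrank M Ω = 3)
    (hirrM : ∀ D : k[X], D ≠ 0 → Irreducible (X ^ 3 + C (algebraMap k[X] M (a * D ^ 2)) * X +
      C (algebraMap k[X] M (b * D ^ 3)) : M[X])) :
    SelMZ k K (sW (algebraMap k[X] M a * (algebraMap k[X] M D) ^ 2)
      (algebraMap k[X] M b * (algebraMap k[X] M D) ^ 3)) := by
  haveI : Algebra.IsIntegral k[X] R := IsIntegralClosure.isIntegral_algebra k[X] M
  haveI : Algebra.IsIntegral k[X] O' := IsIntegralClosure.isIntegral_algebra k[X] Ω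
  haveI : Algebra.IsIntegral k[X] O := IsIntegralClosure.isIntegral_algebra k[X] L
  haveI : FiniteDimensional L Ω := FiniteDimensional.right K L Ω
  haveI : FiniteDimensional M Ω := FiniteDimensional.right K M Ω
  have htop := Pool.Agent.N692.PMTOW.sup_top (K := K) (L := L) (M := M) (Ω := Ω) hM hc.rank hΩ
  haveI : Normal L Ω := Pool.Agent.N692.PMTOW.normal_of_top htop
  haveI : Algebra.IsSeparable L Ω := Algebra.isSeparable_tower_top_of_isSeparable K L Ω
  haveI : IsGalois L Ω := {}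
  have h2 : (2 : k) ≠ 0 := by
    intro h
    apply h6
    have : (6 : k) = 2 * 3 := by norm_num
    rw [this, h, zero_mul]
  have inj : Function.Injective (algebraMap k[X] M) := by
    rw [IsScalarTower.algebraMap_eq k[X] K M]
    exact (algebraMap K M).injective.comp (IsFractionRing.injective k[X] K)
  have h6M : (6 : M) ≠ 0 := by
    have e : algebraMap k[X] M (C (6 : k)) = 6 := by
      rw [show (C (6 : k) : k[X]) = 6 from rfl, map_ofNat]
    rw [← e, Ne, map_eq_zero_iff _ inj, C_eq_zero]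
    exact h6
  have h2K : (2 : K) ≠ 0 := by
    have e : algebraMap k[X] K (C (2 : k)) = 2 := by
      rw [show (C (2 : k) : k[X]) = 2 from rfl, map_ofNat]
    rw [← e, Ne, map_eq_zero_iff _ (IsFractionRing.injective k[X] K), C_eq_zero]
    exact h2
  have hD0 : D ≠ 0 := hD.mon.ne_zero
  intro f hf h2f hloc hinf
  have e1 : algebraMap k[X] M (a * D ^ 2) = algebraMap k[X] M a * (algebraMap k[X] M D) ^ 2 := by
    rw [map_mul, map_pow]
  have e2 : algebraMap k[X] M (b * D ^ 3) = algebraMap k[X] M b * (algebraMap k[X] M D) ^ 3 := by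
    rw [map_mul, map_pow]
  have hirrD := hirrM _ hD0
  rw [e1, e2] at hirrD
  have hirr1 : Irreducible (X ^ 3 + C (algebraMap k[X] M a) * X + C (algebraMap k[X] M b) :
      M[X]) := by
    have := hirrM 1 one_ne_zero
    rwa [one_pow, one_pow, mul_one, mul_one] at this
  have hdisc : 4 * (algebraMap k[X] M a * (algebraMap k[X] M D) ^ 2) ^ 3 +
      27 * (algebraMap k[X] M b * (algebraMap k[X] M D) ^ 3) ^ 2 ≠ 0 := by
    have e : 4 * (algebraMap k[X] M a * (algebraMap k[X] M D) ^ 2) ^ 3 +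
      27 * (algebraMap k[X] M b * (algebraMap k[X] M D) ^ 3) ^ 2 =
        algebraMap k[X] M (D ^ 6 * dsc a b) := by
      simp only [dsc, map_mul, map_add, map_pow, map_ofNat]
      ring
    rw [e, Ne, map_eq_zero_iff _ inj]
    exact mul_ne_zero (pow_ne_zero _ hD0) hd
  have hroot0 : (algebraMap L Ω θ) ^ 3 + algebraMap M Ω (algebraMap k[X] M a) * algebraMap L Ω θ +
      algebraMap M Ω (algebraMap k[X] M b) = 0 := by
    have h1 := congrArg (algebraMap L Ω) hc.root
    rw [map_zero, map_add, map_add, map_mul, map_pow, ← IsScalarTower.algebraMap_apply k[X] L Ω,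
      ← IsScalarTower.algebraMap_apply k[X] L Ω] at h1
    rw [← IsScalarTower.algebraMap_apply k[X] M Ω, ← IsScalarTower.algebraMap_apply k[X] M Ω]
    exact h1
  have hroot : aeval (algebraMap L Ω θ)
      (X ^ 3 + C (algebraMap k[X] M a) * X + C (algebraMap k[X] M b) : M[X]) = 0 := by
    simp only [map_add, map_mul, map_pow, aeval_X, aeval_C]
    exact hroot0
  obtain ⟨β, hβ⟩ := H.gb M _ _ h6M hdisc hirrD f hf h2f
  obtain ⟨h, hh, hn⟩ := H.gn M _ _ h6M hdisc hirrD f hf h2f β hβ
  have hRt : Rt (algebraMap k[X] M a * (algebraMap k[X] M D) ^ 2)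
      (algebraMap k[X] M b * (algebraMap k[X] M D) ^ 3)
      (algebraMap M Ω (algebraMap k[X] M D) * algebraMap L Ω θ) := by
    unfold Rt
    simp only [map_mul, map_pow]
    linear_combination (algebraMap M Ω (algebraMap k[X] M D)) ^ 3 * hroot0
  have hn2 := hn Ω _ hRt hΩ
  have hcnd := top O' R H.loc1 h6 hD0 hd hroot0 hA.unr h2f hβ hh hloc hinf hn2.1
  have hsq := H.tow n K L M Ω h2K hM hc.rank hΩ
    (fun x => CndT K M O' a b D (algebraMap L Ω θ) x) (fun x hx => cndT_sq (gen_of hΩ hirr1 hroot) x)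
    (fun x y hx hy h h' => cndT_mul h6 hD0 hd hirr1 hroot hx hy h h')
    (fun σ x h => cndT_sig H.sig rfl σ h)
    (fun x hx hC hN => base O O' R h6 hc hd hD hA hsel hirr1 hroot htop hx hC hN)
    _ hn2.1 hcnd hn2.2
  exact H.gt M _ _ h6M hdisc hirrD f hf h2f β h hβ hh _ _ hRt hΩ hsq

end abs

end Run7.h875.TM
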