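import Pool.Agent.Run7.h875.TM.Cnd
import Pool.Agent.Run7.h875.Top

/-!
# Twists over 2-extensions: the conditions from cocycles, and down to `K`
-/

set_option autoImplicit false
set_option linter.all false

open Polynomial IsDedekindDomain WeierstrassCurve WeierstrassCurve.Affine
open Pool.Agent.TH115.GD Pool.Agent.N874.PP Pool.Agent.N874.PM Pool.Agent.N199.PP
open Run7.h875.TS Run7.h225.TS.GRP
open scoped Classical IntermediateField

namespace Run7.h875.TM

/-- The valuation of a polynomial not divisible by `P ^ 2`. -/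
theorem val_of_ndvd {k K : Type} [Field k] [Field K] [Algebra k[X] K] [IsFractionRing k[X] K]
    {P r : k[X]} (hP : Irreducible P) (hr : ¬ P ^ 2 ∣ r) :
    WithZero.exp (-1 : ℤ) ≤ (pr hP).valuation K (algebraMap k[X] K r) := by
  by_contra hlt
  rw [not_le] at hlt
  have hr0 : r ≠ 0 := by
    rintro rfl
    exact hr (dvd_zero _)
  have h0 : (pr hP).valuation K (algebraMap k[X] K r) ≠ 0 := by
    rw [Valuation.ne_zero_iff]
    rw [Ne, IsFractionRing.to_map_eq_zero_iff]
    exact hr0
  have h2 : (pr hP).valuation K (algebraMap k[X] K r) ≤ WithZero.exp (-((2 : ℕ) : ℤ)) := by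
    rw [← WithZero.exp_log h0, WithZero.exp_lt_exp] at hlt
    rw [← WithZero.exp_log h0, WithZero.exp_le_exp]
    push_cast
    omega
  rw [HeightOneSpectrum.valuation_of_algebraMap, HeightOneSpectrum.intValuation_le_pow_iff_dvd]
    at h2
  have hg' : (pr hP).asIdeal = Ideal.span {P} := rfl
  rw [hg', Ideal.span_singleton_pow, Ideal.dvd_span_singleton, Ideal.mem_span_singleton] at h2
  exact hr h2

section top

variable {k K L M Ω : Type} (O' R : Type) [Field k] [Finite k] [Field K] [Field L] [Field M]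
  [Field Ω]
  [Algebra k[X] K] [IsFractionRing k[X] K]
  [Algebra K M] [Algebra k[X] M] [IsScalarTower k[X] K M]
  [Algebra M Ω]
  [Algebra k[X] Ω] [IsScalarTower k[X] M Ω]
  [CommRing O'] [IsDedekindDomain O'] [Algebra O' Ω] [IsFractionRing O' Ω] [Algebra k[X] O']
  [IsScalarTower k[X] O' Ω] [IsIntegralClosure O' k[X] Ω]
  [CommRing R] [IsDedekindDomain R] [Algebra R M] [IsFractionRing R M] [Algebra k[X] R]
  [IsScalarTower k[X] R M] [IsIntegralClosure R k[X] M] [IsGalois K M]
  [FiniteDimensional K M]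

include R in
theorem top (hLOC1M : S_LOC1M) {a b D : k[X]} {θ : Ω} (h6 : (6 : k) ≠ 0)
    (hD : D ≠ 0) (hd : dsc a b ≠ 0)
    (hroot : θ ^ 3 + algebraMap M Ω (algebraMap k[X] M a) * θ +
      algebraMap M Ω (algebraMap k[X] M b) = 0)
    (hU : ∀ P : k[X], Irreducible P → Gd a b D P → Unr R P)
    {f : (Sep M ≃ₐ[M] Sep M) → Pt (sW (algebraMap k[X] M a * (algebraMap k[X] M D) ^ 2)
      (algebraMap k[X] M b * (algebraMap k[X] M D) ^ 3)) (Sep M)}
    (hf2 : ∀ σ, (2 : ℕ) • f σ = 0)
    {β : Sep M → Sep M} {H : M[X]} (hβ : IsBeta (algebraMap k[X] M a * (algebraMap k[X] M D) ^ 2)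
      (algebraMap k[X] M b * (algebraMap k[X] M D) ^ 3) f β)
    (hh : ∀ t : Sep M, Rt (algebraMap k[X] M a * (algebraMap k[X] M D) ^ 2)
      (algebraMap k[X] M b * (algebraMap k[X] M D) ^ 3) t → aeval t H = β t ^ 2)
    (hloc : ∀ v : HeightOneSpectrum k[X], LocAbove K (v.adicCompletion K)
      (sW (algebraMap k[X] M a * (algebraMap k[X] M D) ^ 2)
      (algebraMap k[X] M b * (algebraMap k[X] M D) ^ 3)) f)
    (hinf : LocAbove K (CompInf k K)
      (sW (algebraMap k[X] M a * (algebraMap k[X] M D) ^ 2)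
      (algebraMap k[X] M b * (algebraMap k[X] M D) ^ 3)) f)
    (h0 : aeval (algebraMap M Ω (algebraMap k[X] M D) * θ) H ≠ 0) :
    CndT K M O' a b D θ (aeval (algebraMap M Ω (algebraMap k[X] M D) * θ) H) := by
  have h2k : (2 : k) ≠ 0 := by
    intro h0
    apply h6
    rw [show (6 : k) = 2 * 3 by norm_num, h0, zero_mul]
  have inj : Function.Injective (algebraMap k[X] M) := by
    rw [IsScalarTower.algebraMap_eq k[X] K M]
    exact (algebraMap K M).injective.comp (IsFractionRing.injective k[X] K)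
  have h6M : (6 : M) ≠ 0 := by
    have e : algebraMap k[X] M (C (6 : k)) = 6 := by
      rw [show (C (6 : k) : k[X]) = 6 from rfl, map_ofNat]
    rw [← e, Ne, map_eq_zero_iff _ inj, C_eq_zero]
    exact h6
  have hDK : algebraMap k[X] K D ≠ 0 := by
    rw [Ne, IsFractionRing.to_map_eq_zero_iff]
    exact hD
  have hdK : 4 * (algebraMap k[X] K a * (algebraMap k[X] K D) ^ 2) ^ 3 +
      27 * (algebraMap k[X] K b * (algebraMap k[X] K D) ^ 3) ^ 2 ≠ 0 := by
    have e : 4 * (algebraMap k[X] K a * (algebraMap k[X] K D) ^ 2) ^ 3 +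
      27 * (algebraMap k[X] K b * (algebraMap k[X] K D) ^ 3) ^ 2 =
        algebraMap k[X] K (D ^ 6 * dsc a b) := by
      simp only [dsc, map_mul, map_add, map_pow, map_ofNat]
      ring
    rw [e, Ne, IsFractionRing.to_map_eq_zero_iff]
    exact mul_ne_zero (pow_ne_zero _ hD) hd
  have hi := Run7.h225.TS.INFP.infp k K h2k
  have hi1 : ∀ v : HeightOneSpectrum k[X], {z : v.adicCompletion K | ∃ w, w ≠ 0 ∧ w ^ 2 = z ^ 3 +
      algebraMap K (v.adicCompletion K) (algebraMap k[X] K a * (algebraMap k[X] K D) ^ 2) * z +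
      algebraMap K (v.adicCompletion K)
        (algebraMap k[X] K b * (algebraMap k[X] K D) ^ 3)}.Infinite := by
    intro v
    have := hi.1 v
      (algebraMap K (v.adicCompletion K) (algebraMap k[X] K a * (algebraMap k[X] K D) ^ 2))
      (algebraMap K (v.adicCompletion K) (algebraMap k[X] K b * (algebraMap k[X] K D) ^ 3)) 1
      one_ne_zero
    simpa only [one_mul] using this
  have hi2 : {z : CompInf k K | ∃ w, w ≠ 0 ∧ w ^ 2 = z ^ 3 +
      algebraMap K (CompInf k K) (algebraMap k[X] K a * (algebraMap k[X] K D) ^ 2) * z +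
      algebraMap K (CompInf k K)
        (algebraMap k[X] K b * (algebraMap k[X] K D) ^ 3)}.Infinite := by
    have := hi.2
      (algebraMap K (CompInf k K) (algebraMap k[X] K a * (algebraMap k[X] K D) ^ 2))
      (algebraMap K (CompInf k K) (algebraMap k[X] K b * (algebraMap k[X] K D) ^ 3)) 1
      one_ne_zero
    simpa only [one_mul] using this
  have eM : ∀ P : k[X], algebraMap k[X] M P = algebraMap K M (algebraMap k[X] K P) := fun P =>
    IsScalarTower.algebraMap_apply k[X] K M P
  refine ⟨fun P 𝔓 hP hPo hg => ?_, fun v hv j => ?_, fun j => ?_⟩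
  · obtain ⟨w, hw, hO⟩ := Pool.Agent.N55.PM.lie k M Ω R O' 𝔓
    have hPw : Ov P w := (hO P).2 hPo
    obtain ⟨v, hvw, hvO⟩ := Pool.Agent.N55.PM.lie k K M k[X] R w
    obtain ⟨φ, hφ, -, -⟩ := exists_compl_map v w (algebraMap K M) hvw.le hvw.lt
    have hl : PLoc (w.adicCompletion M) (algebraMap k[X] M a * (algebraMap k[X] M D) ^ 2)
        (algebraMap k[X] M b * (algebraMap k[X] M D) ^ 3) H :=
      cond_of_above φ (algebraMap M (w.adicCompletion M)) hφ h6M hdK (hi1 v)
        (by rw [eM, eM, map_mul, map_pow]) (by rw [eM, eM, map_mul, map_pow]) hf2 hβ hh (hloc v)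
    have hDv : w.valuation M (algebraMap k[X] M D) = 1 := by
      refine val_eq_of _ w fun h => hg.2.1 ?_
      exact (Pool.Agent.N862.PP.ov_iff hP hPw D).1 h
    have hdisc : WithZero.exp (-1 : ℤ) ≤ w.valuation M (4 * (algebraMap k[X] M a) ^ 3 +
        27 * (algebraMap k[X] M b) ^ 2) := by
      have e : 4 * (algebraMap k[X] M a) ^ 3 + 27 * (algebraMap k[X] M b) ^ 2 =
          algebraMap k[X] M (dsc a b) := by
        simp only [dsc, map_mul, map_add, map_pow, map_ofNat]
      rw [e, eM, val_unr R hP (hU P hP hg) w hPw]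
      exact val_of_ndvd hP hg.2.2
    exact hLOC1M M Ω R O' w 𝔓 hw (algebraMap k[X] M a) (algebraMap k[X] M b)
      (algebraMap k[X] M D) θ H hroot (val_six h6 w) (val_le a w) (val_le b w) hDv hdisc hl h0
  · exact lat_of_emb h6M hDK hdK (hi1 v) (eM a) (eM b) (eM D) hf2 hβ hh (hloc v) θ j
  · exact lat_of_emb h6M hDK hdK hi2 (eM a) (eM b) (eM D) hf2 hβ hh hinf θ j

end top

end Run7.h875.TM
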